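import Pool.Agent.Lib.MP_17a322_nt.RV.S1

/-!
Values of forms depend only on the blocks of positive degree.

Conventions of the folder RC (colours). `Γ` is a finite type of colours, `W a` is an elliptic curve for
every colour `a`, every block `b` has a colour `col b`. Points are taken in the product group
`∀ a, (V a).toAffine.Point`, and block `b` reads the component of its colour: its x-coordinate is
`(P b (col b)).xRep`. So all sums of points are formed in one group, without casts.
-/

namespace Pool.Agent.Lib.MP_17a322_nt.RC

open MvPolynomial
open Pool.Agent.Lib.MP_17a322_nt.RO Pool.Agent.Lib.MP_17a322_nt.RV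

/-- The value of a multihomogeneous form depends only on the blocks of nonzero degree.
Proof. `S1_evl` and `S1_deg` (RV/S1): `s (b, 0) + s (b, 1) = D b = 0` for the other blocks. -/
theorem evl_congr {K F B : Type*} [Field K] [Field F] [Algebra K F] [Fintype B] [DecidableEq B]
    {φ : MvPolynomial (B × Fin 2) K} {D : B → ℕ} (h : MH φ D) (x y : B → Fin 2 → F)
    (hxy : ∀ b, D b ≠ 0 → x b = y b) : evl x φ = evl y φ := by
  rw [S1_evl, S1_evl]
  refine Finset.sum_congr rfl fun s hs => ?_
  congr 1
  refine Finset.prod_congr rfl fun b _ => ?_
  by_cases hb : D b = 0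
  · have h1 := S1_deg h hs b
    have h2 : s (b, 0) = 0 := by omega
    have h3 : s (b, 1) = 0 := by omega
    rw [h2, h3, pow_zero, pow_zero, pow_zero, pow_zero]
  · rw [hxy b hb]

end Pool.Agent.Lib.MP_17a322_nt.RC
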