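import Pool.Agent.Lib.MP_17a322_nt.RV.C5
import Pool.Agent.Lib.MP_17a322_nt.RC.E

/-!
The forms for `x(P ± ℓ Q)`, blocks with colours.
-/

namespace Pool.Agent.Lib.MP_17a322_nt.RC

open MvPolynomial WeierstrassCurve
open Pool.Agent.Lib.MP_17a322_nt.RO Pool.Agent.Lib.MP_17a322_nt.RV

universe u

/-- As `exists_blockTrans` in RV/C5 for blocks with colours (see RC/E).
Proof. For every colour `a` take the family `S_a` of `RV.exists_blockTrans (W a) c ℓ`, and put
`S i k = S_(cB i) i k`. For given `F`, `V`, `Q`, `P` and `i`, with `a = cB i`, apply its property to the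
points `fun j => Q j a` and `fun i' => P i' a` of `V a`. The two families of vectors agree in the
blocks where `S i k` has nonzero degree: block `inr i`, and block `inl (c i)` if `ℓ i ≠ 0`, and then
`cJ (c i) = cB i`. Use `evl_congr` (RC/E). -/
theorem exists_blockTrans {K : Type u} [Field K] {Γ : Type} (W : Γ → WeierstrassCurve K)
    [∀ a, (W a).IsElliptic] {J B : Type*} [Fintype J] [DecidableEq J] [Fintype B] [DecidableEq B]
    (cJ : J → Γ) (cB : B → Γ) (c : B → J) (ℓ : B → ℤ) (hℓ : ∀ i, ℓ i ≠ 0 → cJ (c i) = cB i) :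
    ∃ S : B → Fin 3 → MvPolynomial ((J ⊕ B) × Fin 2) K,
      (∀ i k, MH (S i k)
        (Sum.elim (Pi.single (c i) (2 * (ℓ i).natAbs ^ 2)) (Pi.single i 2))) ∧
      ∀ (F : Type u) [Field F] [DecidableEq F] [Algebra K F] (V : Γ → WeierstrassCurve F),
        (∀ a, (W a).map (algebraMap K F) = V a) →
        ∀ (Q : J → ∀ a, (V a).toAffine.Point) (P : B → ∀ a, (V a).toAffine.Point),
          ∃ γ : B → F, (∀ i, γ i ≠ 0) ∧ ∀ i k,
            evl (Sum.elim (fun j => (Q j (cJ j)).xRep) (fun i => (P i (cB i)).xRep)) (S i k) =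
              γ i * sq2 ((P i - ℓ i • Q (c i)) (cB i)).xRep
                ((P i + ℓ i • Q (c i)) (cB i)).xRep k := by
  classical
  choose T hT hT' using fun a : Γ => RV.exists_blockTrans (W a) c ℓ
  refine ⟨fun i k => T (cB i) i k, fun i k => hT (cB i) i k, ?_⟩
  intro F _ _ _ V hV Q P
  choose γ hγ hγ' using fun a : Γ => hT' a F (V a) (hV a) (fun j => Q j a) (fun i' => P i' a)
  refine ⟨fun i => γ (cB i) i, fun i => hγ (cB i) i, fun i k => ?_⟩
  have h := hγ' (cB i) i k
  have e1 : evl (Sum.elim (fun j => (Q j (cJ j)).xRep) (fun i => (P i (cB i)).xRep))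
      (T (cB i) i k) =
      evl (Sum.elim (fun j => (Q j (cB i)).xRep) (fun i' => (P i' (cB i)).xRep))
        (T (cB i) i k) := by
    refine evl_congr (hT (cB i) i k) _ _ fun b hb => ?_
    rcases b with j | i'
    · simp only [Sum.elim_inl, ne_eq] at hb ⊢
      by_cases hj : j = c i
      · subst hj
        have hl : ℓ i ≠ 0 := by
          intro h0
          apply hb
          simp [h0]
        rw [hℓ i hl]
      · exact absurd (Pi.single_eq_of_ne hj _) hb
    · simp only [Sum.elim_inr, ne_eq] at hb ⊢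
      by_cases hj : i' = i
      · subst hj
        rfl
      · exact absurd (Pi.single_eq_of_ne hj _) hb
  rw [e1, h]
  rfl

end Pool.Agent.Lib.MP_17a322_nt.RC
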