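import Pool.Agent.Lib.MP_17a322_nt.RC.C5
import Pool.Agent.Lib.MP_17a322_nt.RV.K2a

/-!
The auxiliary form, blocks with colours.
-/

namespace Pool.Agent.Lib.MP_17a322_nt.RC

open MvPolynomial WeierstrassCurve Height
open Pool.Agent.Lib.MP_17a322_nt.RO Pool.Agent.Lib.MP_17a322_nt.RV

universe u

/-- As `exists_aux` in RV/K2a for blocks with colours (see RC/E). Proof as in RV/K2a, with
`exists_blockTrans` of RC/C5; the other tools (`exists_parityForms`, `exists_kernel`, ..) do not involve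
the curve. -/
theorem exists_aux {K : Type u} [Field K] [CharZero K] {Γ : Type} (W : Γ → WeierstrassCurve K)
    [∀ a, (W a).IsElliptic] {J B κ : Type} [Fintype J] [DecidableEq J] [Fintype B] [DecidableEq B]
    [Fintype κ] (cJ : J → Γ) (cB : B → Γ) (c : B → J) (D : B → ℕ)
    (g : κ → MvPolynomial (B × Fin 2) K)
    (hg : ∀ k, MH (g k) D) (d C₁ e₀ : ℕ) (hD : ∀ i, D i ≤ e₀) (hilb : Hilb D g d C₁ e₀)
    (ℓ : B → ℤ) (hℓ : ∀ i, ℓ i ≠ 0 → cJ (c i) = cB i) (b : ℕ) (hb : 1 ≤ b)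
    (hbe : e₀ ≤ 2 * (b - 1))
    (hcard : 4 ^ Fintype.card B *
        (∏ j, (b + ∑ i with c i = j, 2 * (ℓ i).natAbs ^ 2 * b + 1)) *
          (C₁ * (2 * b + 1) ^ d) < (b + 1) ^ (Fintype.card J + Fintype.card B)) :
    ∃ (G : MvPolynomial ((J ⊕ B) × Fin 2) K)
      (S : B → Fin 3 → MvPolynomial ((J ⊕ B) × Fin 2) K)
      (h : ((B → Fin 2) × Finset B) → κ → MvPolynomial ((J ⊕ B) × Fin 2) K),
      MH G (fun _ => b) ∧ G ≠ 0 ∧
      (∀ i k, MH (S i k)
        (Sum.elim (Pi.single (c i) (2 * (ℓ i).natAbs ^ 2)) (Pi.single i 2))) ∧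
      (∀ y k, MH (h y k) (Sum.elim
        (fun j => b + ∑ i with c i = j, 2 * (ℓ i).natAbs ^ 2 * (b - if i ∈ y.2 then 1 else 0))
        (fun i => 2 * (b - if i ∈ y.2 then 1 else 0) - D i))) ∧
      ∀ (F : Type u) [Field F] [DecidableEq F] [Algebra K F] (V : Γ → WeierstrassCurve F),
        (∀ a, (W a).map (algebraMap K F) = V a) →
        ∀ (Q : J → ∀ a, (V a).toAffine.Point) (P : B → ∀ a, (V a).toAffine.Point),
        ∃ γ : B → F, (∀ i, γ i ≠ 0) ∧
        (∀ i k, evl (Sum.elim (fun j => (Q j (cJ j)).xRep) (fun i => (P i (cB i)).xRep)) (S i k) =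
          γ i * sq2 ((P i - ℓ i • Q (c i)) (cB i)).xRep
            ((P i + ℓ i • Q (c i)) (cB i)).xRep k) ∧
        ∀ τ : B → Fin 2, (∏ i, γ i ^ b) *
            evl (Sum.elim (fun j => (Q j (cJ j)).xRep)
              (fun i => ((P i - ℓ i • Q (c i)) (cB i)).xRep)) G *
              ∏ i, ((P i + ℓ i • Q (c i)) (cB i)).xRep (τ i) ^ b =
          ∑ T : Finset B, (∏ i ∈ T, γ i *
              (((P i - ℓ i • Q (c i)) (cB i)).xRep 0 * ((P i + ℓ i • Q (c i)) (cB i)).xRep 1 -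
                ((P i - ℓ i • Q (c i)) (cB i)).xRep 1 *
                  ((P i + ℓ i • Q (c i)) (cB i)).xRep 0)) *
            ∑ k, evl (Sum.elim (fun j => (Q j (cJ j)).xRep) (fun i => (P i (cB i)).xRep))
                (h (τ, T) k) *
              evl (fun i => (P i (cB i)).xRep) (g k) := by
  classical
  obtain ⟨S, hS, hSv⟩ := RC.exists_blockTrans W cJ cB c ℓ hℓ
  obtain ⟨A, hA, hAv⟩ := exists_parityForms c (fun i => 2 * (ℓ i).natAbs ^ 2) S hS b hb
  have hEB : ∀ (y : (B → Fin 2) × Finset B) (i : B), e₀ ≤ 2 * (b - if i ∈ y.2 then 1 else 0) := by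
    intro y i
    split_ifs
    · exact hbe
    · omega
  have hsub : ∀ (y : (B → Fin 2) × Finset B) (i : B), (b - if i ∈ y.2 then 1 else 0) ≤ b :=
    fun y i => Nat.sub_le _ _
  have hcard' : ∑ y : (B → Fin 2) × Finset B,
      (∏ j, ((b + ∑ i with c i = j, 2 * (ℓ i).natAbs ^ 2 * (b - if i ∈ y.2 then 1 else 0)) + 1)) *
        (C₁ * (Finset.univ.sup (fun i => 2 * (b - if i ∈ y.2 then 1 else 0)) + 1) ^ d) <
      Fintype.card ((J ⊕ B) → Fin (b + 1)) := by
    have h1 : Fintype.card ((J ⊕ B) → Fin (b + 1)) = (b + 1) ^ (Fintype.card J + Fintype.card B) := by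
      rw [Fintype.card_fun, Fintype.card_fin, Fintype.card_sum]
    have h2 : Fintype.card ((B → Fin 2) × Finset B) = 4 ^ Fintype.card B := by
      rw [Fintype.card_prod, Fintype.card_fun, Fintype.card_fin, Fintype.card_finset, ← mul_pow]
      norm_num
    rw [h1]
    refine lt_of_le_of_lt ?_ hcard
    refine (Finset.sum_le_card_nsmul _ _ ((∏ j, (b + ∑ i with c i = j, 2 * (ℓ i).natAbs ^ 2 * b + 1)) *
        (C₁ * (2 * b + 1) ^ d)) fun y _ => ?_).trans (le_of_eq ?_)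
    · refine Nat.mul_le_mul (Finset.prod_le_prod' fun j _ => ?_) (Nat.mul_le_mul_left _
        (Nat.pow_le_pow_left (Nat.succ_le_succ (Finset.sup_le fun i _ => ?_)) _))
      · refine Nat.succ_le_succ (Nat.add_le_add_left (Finset.sum_le_sum fun i _ => ?_) _)
        exact Nat.mul_le_mul_left _ (hsub y i)
      · exact Nat.mul_le_mul_left _ (hsub y i)
    · rw [Finset.card_univ, h2, smul_eq_mul, mul_assoc]
  obtain ⟨γ, hγ, hker⟩ := exists_kernel D g hg d C₁ e₀ hD hilb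
    (X := (J ⊕ B) → Fin (b + 1)) (Y := (B → Fin 2) × Finset B)
    (fun y j => b + ∑ i with c i = j, 2 * (ℓ i).natAbs ^ 2 * (b - if i ∈ y.2 then 1 else 0))
    (fun y i => 2 * (b - if i ∈ y.2 then 1 else 0)) hEB A hA hcard'
  choose h hh hsum using hker
  refine ⟨bform b γ, S, h, mh_bform b γ, bform_ne_zero b γ hγ, hS, hh, ?_⟩
  intro F _ _ _ V hV Q P
  obtain ⟨δ, hδ, hδS⟩ := hSv F V hV Q P
  refine ⟨δ, hδ, hδS, fun τ => ?_⟩
  have key := hAv F (fun j => (Q j (cJ j)).xRep) (fun i => (P i (cB i)).xRep) (fun i => ((P i - ℓ i • Q (c i)) (cB i)).xRep)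
    (fun i => ((P i + ℓ i • Q (c i)) (cB i)).xRep) δ hδS τ
  rw [evl_bform, Finset.mul_sum, Finset.sum_mul]
  have h3 : ∀ T : Finset B, ∑ k, evl (Sum.elim (fun j => (Q j (cJ j)).xRep) (fun i => (P i (cB i)).xRep)) (h (τ, T) k) *
      evl (fun i => (P i (cB i)).xRep) (g k) =
      ∑ x, algebraMap K F (γ x) * evl (Sum.elim (fun j => (Q j (cJ j)).xRep) (fun i => (P i (cB i)).xRep)) (A (τ, T) x) := by
    intro T
    have h4 := congrArg (evl (Sum.elim (fun j => (Q j (cJ j)).xRep) (fun i => (P i (cB i)).xRep))) (hsum (τ, T))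
    unfold evl at h4 ⊢
    rw [map_sum, map_sum] at h4
    refine Eq.trans ?_ (h4.symm.trans ?_)
    · refine Finset.sum_congr rfl fun k _ => ?_
      rw [map_mul, aeval_rename]
      rfl
    · refine Finset.sum_congr rfl fun x _ => ?_
      rw [map_mul, aeval_C]
  rw [Finset.sum_congr rfl fun T _ => congrArg _ (h3 T)]
  simp only [Finset.mul_sum]
  rw [Finset.sum_comm]
  refine Finset.sum_congr rfl fun x _ => ?_
  have h5 := congrArg (fun z => algebraMap K F (γ x) * z) (key x)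
  simp only [Finset.mul_sum] at h5
  rw [show ∀ a b c e : F, a * (b * c) * e = b * (a * c * e) from fun a b c e => by ring, h5]
  refine Finset.sum_congr rfl fun T _ => ?_
  ring

end Pool.Agent.Lib.MP_17a322_nt.RC
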