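import Pool.Agent.Lib.MP_17a322_nt.RC.K2a
import Pool.Agent.Lib.MP_17a322_nt.RV.K2b

/-!
The height inequality given by the auxiliary form, blocks with colours.
-/

namespace Pool.Agent.Lib.MP_17a322_nt.RC

open MvPolynomial WeierstrassCurve Height
open Pool.Agent.Lib.MP_17a322_nt.RO Pool.Agent.Lib.MP_17a322_nt.RV

universe u

/-- As `core` in RV/K2b for blocks with colours (see RC/E). Proof as in RV/K2b, with `exists_aux` of
RC/K2a. The parallelogram law and the quadratic form are used for the curve `V (cB i)`, for the points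
`P i (cB i)` and `ℓ i • Q (c i) (cB i)`; if `ℓ i ≠ 0` then `Q (c i) (cB i)` is `Q (c i) (cJ (c i))` (up to
the equality of the colours, e.g. `logHeight ((Q (c i)) (cB i)).xRep = logHeight ((Q (c i)) (cJ (c i))).xRep`
by rewriting with `hℓ`), and if `ℓ i = 0` the terms with `ℓ i` vanish. The constants of the finitely many
blocks (one for every `i`, from `parallelogram_unif (W (cB i))`) are added. -/
theorem core {K : Type u} [Field K] [NumberField K] {Γ : Type} (W : Γ → WeierstrassCurve K)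
    [∀ a, (W a).IsElliptic] {J B κ : Type} [Fintype J] [DecidableEq J]
    [Fintype B] [DecidableEq B] [Fintype κ] (cJ : J → Γ) (cB : B → Γ) (c : B → J) (D : B → ℕ)
    (g : κ → MvPolynomial (B × Fin 2) K) (hg : ∀ k, MH (g k) D) (d C₁ e₀ : ℕ)
    (hD : ∀ i, D i ≤ e₀) (hilb : Hilb D g d C₁ e₀) (ℓ : B → ℤ)
    (hℓ : ∀ i, ℓ i ≠ 0 → cJ (c i) = cB i) (b : ℕ) (hb : 1 ≤ b)
    (hbe : e₀ ≤ 2 * (b - 1))
    (hcard : 4 ^ Fintype.card B *
        (∏ j, (b + ∑ i with c i = j, 2 * (ℓ i).natAbs ^ 2 * b + 1)) *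
          (C₁ * (2 * b + 1) ^ d) < (b + 1) ^ (Fintype.card J + Fintype.card B)) :
    ∃ G : MvPolynomial ((J ⊕ B) × Fin 2) K, MH G (fun _ => b) ∧ G ≠ 0 ∧ ∃ C : ℝ, 0 ≤ C ∧
      ∀ (L : Type u) [Field L] [NumberField L] [DecidableEq L] [Algebra K L]
        (V : Γ → WeierstrassCurve L), (∀ a, (W a).map (algebraMap K L) = V a) →
        ∀ (Q : J → ∀ a, (V a).toAffine.Point) (P : B → ∀ a, (V a).toAffine.Point),
          evl (Sum.elim (fun j => (Q j (cJ j)).xRep)
            (fun i => ((P i - ℓ i • Q (c i)) (cB i)).xRep)) G ≠ 0 →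
            (∃ k, evl (fun i => (P i (cB i)).xRep) (g k) ≠ 0) ∧
              dfc D g (fun i => (P i (cB i)).xRep) ≤
                b * (∑ j, logHeight (Q j (cJ j)).xRep +
                  ∑ i, logHeight ((P i - ℓ i • Q (c i)) (cB i)).xRep) +
                    C * Module.finrank ℚ L := by
  obtain ⟨G, S, h, hG, hG0, hS, hh, hV⟩ :=
    RC.exists_aux W cJ cB c D g hg d C₁ e₀ hD hilb ℓ hℓ b hb hbe hcard
  obtain ⟨C1, hC1, hvec⟩ := height_vec c (fun i => 2 * (ℓ i).natAbs ^ 2) D b hb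
    (fun i => (hD i).trans hbe) S hS h hh
  choose C2 hC2 hpar using fun i => parallelogram_unif (W (cB i))
  refine ⟨G, hG, hG0, C1 + b * ∑ i, (2 * (ℓ i : ℝ) ^ 2 + 3) * C2 i, ?_, ?_⟩
  · exact add_nonneg hC1 (mul_nonneg (Nat.cast_nonneg _)
      (Finset.sum_nonneg fun i _ => mul_nonneg (by positivity) (hC2 i)))
  intro L _ _ _ _ V hWV Q P hne
  obtain ⟨γ, hγ, hSv, hid⟩ := hV L V hWV Q P
  obtain ⟨hgv, hle⟩ := hvec L (fun j => (Q j (cJ j)).xRep) (fun i => (P i (cB i)).xRep)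
    (fun i => ((P i - ℓ i • Q (c i)) (cB i)).xRep)
    (fun i => ((P i + ℓ i • Q (c i)) (cB i)).xRep) γ _
    (fun k => evl (fun i => (P i (cB i)).xRep) (g k))
    (fun j => Affine.Point.xRep_ne_zero _) (fun i => Affine.Point.xRep_ne_zero _)
    (fun i => Affine.Point.xRep_ne_zero _) hγ hne hSv hid
  refine ⟨hgv, ?_⟩
  have h1 : ∀ i, 2 * logHeight (P i (cB i)).xRep +
      2 * (ℓ i : ℝ) ^ 2 * logHeight (Q (c i) (cJ (c i))).xRep ≤
      logHeight ((P i - ℓ i • Q (c i)) (cB i)).xRep +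
        logHeight ((P i + ℓ i • Q (c i)) (cB i)).xRep +
        (2 * (ℓ i : ℝ) ^ 2 + 3) * (C2 i * Module.finrank ℚ L) := by
    intro i
    have e1 := K2b_mul (fun R : (V (cB i)).toAffine.Point => logHeight R.xRep) (K2b_zero (V (cB i)))
      (fun R => logHeight_nonneg _) _ (hpar i L (V (cB i)) (hWV (cB i))) (ℓ i) (P i (cB i))
      (Q (c i) (cB i))
    have e2 : (ℓ i : ℝ) ^ 2 * logHeight (Q (c i) (cJ (c i))).xRep =
        (ℓ i : ℝ) ^ 2 * logHeight (Q (c i) (cB i)).xRep := by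
      by_cases hz : ℓ i = 0
      · rw [hz, Int.cast_zero]
        ring
      · rw [hℓ i hz]
    rw [mul_assoc, e2, ← mul_assoc]
    exact e1
  have h2 : ∑ i, (2 * logHeight (P i (cB i)).xRep +
      2 * (ℓ i : ℝ) ^ 2 * logHeight (Q (c i) (cJ (c i))).xRep) ≤
      ∑ i, (logHeight ((P i - ℓ i • Q (c i)) (cB i)).xRep +
        logHeight ((P i + ℓ i • Q (c i)) (cB i)).xRep +
        (2 * (ℓ i : ℝ) ^ 2 + 3) * (C2 i * Module.finrank ℚ L)) :=
    Finset.sum_le_sum fun i _ => h1 i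
  have h3 : ∑ j, ((b + ∑ i with c i = j, 2 * (ℓ i).natAbs ^ 2 * b : ℕ) : ℝ) *
        logHeight (Q j (cJ j)).xRep =
      b * ∑ j, logHeight (Q j (cJ j)).xRep +
        b * ∑ i, 2 * (ℓ i : ℝ) ^ 2 * logHeight (Q (c i) (cJ (c i))).xRep := by
    have h4 : ∀ j, ((b + ∑ i with c i = j, 2 * (ℓ i).natAbs ^ 2 * b : ℕ) : ℝ) *
        logHeight (Q j (cJ j)).xRep = b * logHeight (Q j (cJ j)).xRep +
          ∑ i with c i = j, b * (2 * (ℓ i : ℝ) ^ 2 * logHeight (Q (c i) (cJ (c i))).xRep) := by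
      intro j
      have h5 : ∑ i with c i = j, b * (2 * (ℓ i : ℝ) ^ 2 *
            logHeight (Q (c i) (cJ (c i))).xRep) =
          ∑ i with c i = j, (2 * (ℓ i : ℝ) ^ 2 * b) * logHeight (Q j (cJ j)).xRep := by
        refine Finset.sum_congr rfl fun i hi => ?_
        rw [(Finset.mem_filter.1 hi).2]
        ring
      have h9 : ((b + ∑ i with c i = j, 2 * (ℓ i).natAbs ^ 2 * b : ℕ) : ℝ) =
          b + ∑ i with c i = j, 2 * (ℓ i : ℝ) ^ 2 * b := by
        rw [Nat.cast_add, Nat.cast_sum]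
        refine congrArg _ (Finset.sum_congr rfl fun i _ => ?_)
        rw [Nat.cast_mul, Nat.cast_mul, Nat.cast_pow, Nat.cast_natAbs, Int.cast_abs, sq_abs,
          Nat.cast_ofNat]
      rw [h5, h9, add_mul, Finset.sum_mul]
    have h5 := Finset.sum_fiberwise Finset.univ c
      (fun i => b * (2 * (ℓ i : ℝ) ^ 2 * logHeight (Q (c i) (cJ (c i))).xRep))
    rw [Finset.sum_congr rfl fun j _ => h4 j, Finset.sum_add_distrib, h5, ← Finset.mul_sum,
      ← Finset.mul_sum]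
  rw [Finset.sum_add_distrib, Finset.sum_add_distrib, Finset.sum_add_distrib,
    ← Finset.mul_sum] at h2
  have h10 : (∑ i, (2 * (ℓ i : ℝ) ^ 2 + 3) * (C2 i * (Module.finrank ℚ L : ℝ))) =
      (∑ i, (2 * (ℓ i : ℝ) ^ 2 + 3) * C2 i) * (Module.finrank ℚ L : ℝ) := by
    rw [Finset.sum_mul]
    refine Finset.sum_congr rfl fun i _ => ?_
    ring
  rw [h10] at h2
  have h6 : ∑ i, (2 * (b : ℝ) - D i) * logHeight (P i (cB i)).xRep =
      b * (2 * ∑ i, logHeight (P i (cB i)).xRep) -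
        ∑ i, (D i : ℝ) * logHeight (P i (cB i)).xRep := by
    rw [Finset.mul_sum, Finset.mul_sum, ← Finset.sum_sub_distrib]
    refine Finset.sum_congr rfl fun i _ => ?_
    ring
  have h7 := mul_le_mul_of_nonneg_left h2 (Nat.cast_nonneg (α := ℝ) b)
  unfold dfc
  rw [h3, h6] at hle
  linarith

end Pool.Agent.Lib.MP_17a322_nt.RC
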