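import Pool.Agent.Lib.MP_17a322_nt.RV.T2

/-!
Nonvanishing on a grid, blocks with colours.
-/

namespace Pool.Agent.Lib.MP_17a322_nt.RC

open MvPolynomial WeierstrassCurve
open Pool.Agent.Lib.MP_17a322_nt.RO Pool.Agent.Lib.MP_17a322_nt.RV

universe u

/-- One block, arbitrary vectors in the other blocks. Proof as in RV/T2 `exists_grid_one` (the points
of the other blocks are not used). -/
theorem exists_grid_one {K : Type u} [Field K] [CharZero K] {B : Type} [Fintype B]
    [DecidableEq B] (s : B) (E : B → ℕ) (G : MvPolynomial (B × Fin 2) K) (hG : MH G E)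
    (hG0 : G ≠ 0) :
    ∃ (R : MvPolynomial (B × Fin 2) K) (M : ℕ), MH R (Function.update E s 0) ∧ R ≠ 0 ∧
      ∀ (F : Type u) [Field F] [DecidableEq F] [Algebra K F] (z : B → Fin 2 → F),
        evl z R ≠ 0 → ∀ (V : WeierstrassCurve F) (A : Finset V.toAffine.Point), M < A.card →
          ∃ Q ∈ A, evl (Function.update z s Q.xRep) G ≠ 0 := by
  classical
  let B' : Type := {b : B // b ≠ s}
  let f : B → Option B' := fun b => if h : b = s then none else some ⟨b, h⟩
  have hfs : f s = none := dif_pos rfl
  have hfb : ∀ b (h : b ≠ s), f b = some ⟨b, h⟩ := fun b h => dif_neg h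
  have hfinj : Function.Injective f := by
    intro b b' hbb
    by_cases hb : b = s
    · by_cases hb' : b' = s
      · rw [hb, hb']
      · rw [hb, hfs, hfb b' hb'] at hbb
        cases hbb
    · by_cases hb' : b' = s
      · rw [hb', hfs, hfb b hb] at hbb
        cases hbb
      · rw [hfb b hb, hfb b' hb'] at hbb
        exact congrArg Subtype.val (Option.some.inj hbb)
  set φ : MvPolynomial (Option B' × Fin 2) K :=
    evl (fun b i => (X (f b, i) : MvPolynomial (Option B' × Fin 2) K)) G with hφdef
  have hφ : MH φ (pd (E s) (fun b' => E b'.1)) := by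
    have h1 := T2_mh_map G E hG f
    have h2 : (∑ b, E b • (Pi.single (f b) 1 : Option B' → ℕ)) =
        pd (E s) (fun b' => E b'.1) := by
      funext o
      rw [Finset.sum_apply]
      cases o with
      | none =>
        rw [Finset.sum_eq_single s]
        · rw [hfs]
          simp [pd]
        · intro b _ hb
          rw [hfb b hb]
          simp
        · intro h
          exact absurd (Finset.mem_univ _) h
      | some b' =>
        rw [Finset.sum_eq_single b'.1]
        · rw [hfb b'.1 b'.2]
          simp [pd]
        · intro b _ hb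
          have h3 : some b' ≠ f b := by
            intro h4
            rw [← hfb b'.1 b'.2] at h4
            exact hb (hfinj h4).symm
          rw [Pi.smul_apply, Pi.single_eq_of_ne h3, smul_zero]
        · intro h
          exact absurd (Finset.mem_univ _) h
    rw [h2] at h1
    exact h1
  obtain ⟨c, hcMH, hc⟩ := exists_coeffs (E s) (fun b' : B' => E b'.1) φ hφ
  have hφ0 : φ ≠ 0 := by
    intro h0
    apply hG0
    -- go back
    have h1 := T2_evl_map (A := MvPolynomial (B × Fin 2) K) G f
      (fun o i => X (o.elim s (fun b' => b'.1), i))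
    rw [← hφdef, h0] at h1
    have h2 : evl (fun (o : Option B') (i : Fin 2) =>
        (X (o.elim s (fun b' => b'.1), i) : MvPolynomial (B × Fin 2) K))
        (0 : MvPolynomial (Option B' × Fin 2) K) = 0 := by
      unfold evl
      exact map_zero _
    rw [h2] at h1
    have h3 : (fun b => (fun (o : Option B') (i : Fin 2) =>
        (X (o.elim s (fun b' => b'.1), i) : MvPolynomial (B × Fin 2) K)) (f b)) =
        fun b i => X (b, i) := by
      funext b i
      by_cases hb : b = s
      · subst hb
        rw [hfs]
        rfl
      · rw [hfb b hb]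
        rfl
    rw [h3, T2_evl_X] at h1
    exact h1.symm
  obtain ⟨k, hk, hck⟩ : ∃ k ∈ Finset.range (E s + 1), c k ≠ 0 := by
    by_contra hcon
    push Not at hcon
    apply hφ0
    have h1 := hc (MvPolynomial (Option B' × Fin 2) K) (fun i => X (none, i))
      (fun b i => X (some b, i))
    have h2 : (pv (fun i => (X (none, i) : MvPolynomial (Option B' × Fin 2) K))
        (fun b i => X (some b, i))) = fun o i => X (o, i) := by
      funext o i
      cases o with
      | none => rfl
      | some b => rfl
    rw [h2, T2_evl_X] at h1
    rw [h1]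
    refine Finset.sum_eq_zero fun k hk => ?_
    rw [hcon k hk]
    have h3 : evl (fun (b : B') (i : Fin 2) =>
        (X (some b, i) : MvPolynomial (Option B' × Fin 2) K)) (0 : MvPolynomial (B' × Fin 2) K) = 0 := by
      unfold evl
      exact map_zero _
    rw [h3, zero_mul, zero_mul]
  have hkE : k ≤ E s := Nat.lt_succ_iff.1 (Finset.mem_range.1 hk)
  refine ⟨evl (fun (b' : B') i => (X (b'.1, i) : MvPolynomial (B × Fin 2) K)) (c k), 2 * E s,
    ?_, ?_, ?_⟩
  · have h1 := T2_mh_map (c k) (fun b' : B' => E b'.1) (hcMH k) (fun b' : B' => b'.1)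
    have h2 : (∑ b' : B', E b'.1 • (Pi.single b'.1 1 : B → ℕ)) = Function.update E s 0 := by
      funext b
      rw [Finset.sum_apply]
      by_cases hb : b = s
      · subst hb
        rw [Function.update_self]
        refine Finset.sum_eq_zero fun b' _ => ?_
        rw [Pi.smul_apply, Pi.single_eq_of_ne b'.2.symm, smul_zero]
      · rw [Function.update_of_ne hb, Finset.sum_eq_single (⟨b, hb⟩ : B')]
        · simp
        · intro b' _ hb'
          have h3 : b ≠ b'.1 := fun h4 => hb' (Subtype.ext h4.symm)
          rw [Pi.smul_apply, Pi.single_eq_of_ne h3, smul_zero]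
        · intro h
          exact absurd (Finset.mem_univ _) h
    rw [h2] at h1
    exact h1
  · intro h0
    apply hck
    have h1 := T2_evl_map (A := MvPolynomial (B' × Fin 2) K) (c k) (fun b' : B' => b'.1)
      (fun b i => if h : b = s then 0 else X (⟨b, h⟩, i))
    rw [h0] at h1
    have h2 : evl (fun (b : B) (i : Fin 2) =>
        (if h : b = s then 0 else X (⟨b, h⟩, i) : MvPolynomial (B' × Fin 2) K))
        (0 : MvPolynomial (B × Fin 2) K) = 0 := by
      unfold evl
      exact map_zero _
    rw [h2] at h1
    have h3 : (fun b' : B' => (fun (b : B) (i : Fin 2) =>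
        (if h : b = s then 0 else X (⟨b, h⟩, i) : MvPolynomial (B' × Fin 2) K)) b'.1) =
        fun b' i => X (b', i) := by
      funext b' i
      exact dif_neg b'.2
    rw [h3, T2_evl_X] at h1
    exact h1.symm
  · intro F _ _ _ z hne V A hA
    have hchar : CharZero F := charZero_of_injective_algebraMap (algebraMap K F).injective
    by_contra hcon
    push Not at hcon
    have hR : evl (fun b' : B' => z b'.1) (c k) ≠ 0 := by
      have h1 := T2_evl_map (c k) (fun b' : B' => b'.1) z
      rw [h1] at hne
      exact hne
    have h2 : A.card ≤ 2 * E s := by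
      refine card_zeros_le V (E s) (fun k => evl (fun b' : B' => z b'.1) (c k)) A
        (T2_binary (E s) _ k hkE hR) fun Q hQ => ?_
      rw [← hc F Q.xRep (fun b' : B' => z b'.1), hφdef, T2_evl_map, ← hcon Q hQ]
      congr 1
      funext b
      by_cases hb : b = s
      · subst hb
        rw [hfs, Function.update_self]
        rfl
      · rw [hfb b hb, Function.update_of_ne hb]
        rfl
    omega

/-- Several blocks, with colours (see RC/E). Proof as in RV/T2 `exists_grid_many`, by induction on `S`
with `exists_grid_one`; the sets `A s` are sets of elements of the product group whose components of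
colour `col s` are different (`(A s).image` / `Finset.card_image_of_injOn`, classical decidability). -/
theorem exists_grid_many {K : Type u} [Field K] [CharZero K] {Γ B : Type} [Fintype B]
    [DecidableEq B] (col : B → Γ) (S : Finset B) (E : B → ℕ) (G : MvPolynomial (B × Fin 2) K)
    (hG : MH G E) (hG0 : G ≠ 0) :
    ∃ (R : MvPolynomial (B × Fin 2) K) (M : ℕ), MH R (fun b => if b ∈ S then 0 else E b) ∧
      R ≠ 0 ∧ ∀ (F : Type u) [Field F] [DecidableEq F] [Algebra K F]
        (V : Γ → WeierstrassCurve F) (P : B → ∀ a, (V a).toAffine.Point),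
        evl (fun b => (P b (col b)).xRep) R ≠ 0 →
          ∀ A : B → Finset (∀ a, (V a).toAffine.Point),
            (∀ s ∈ S, M < (A s).card ∧ Set.InjOn (fun X : ∀ a, (V a).toAffine.Point => X (col s))
              (A s : Set (∀ a, (V a).toAffine.Point))) →
              ∃ P' : B → ∀ a, (V a).toAffine.Point, (∀ s ∈ S, P' s ∈ A s) ∧
                (∀ b ∉ S, P' b = P b) ∧ evl (fun b => (P' b (col b)).xRep) G ≠ 0 := by
  classical
  induction S using Finset.induction_on with
  | empty =>
    refine ⟨G, 0, ?_, hG0, fun F _ _ _ V P hP A _ => ⟨P, ?_, fun b _ => rfl, hP⟩⟩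
    · have h1 : (fun b => if b ∈ (∅ : Finset B) then 0 else E b) = E := by
        funext b
        rw [if_neg (Finset.notMem_empty b)]
      rw [h1]
      exact hG
    · intro s hs
      exact absurd hs (Finset.notMem_empty s)
  | insert s S hs ih =>
    obtain ⟨R₁, M₁, hR₁, hR₁0, hprop₁⟩ := ih
    obtain ⟨R, M, hR, hR0, hprop⟩ := exists_grid_one s _ R₁ hR₁ hR₁0
    refine ⟨R, max M M₁, ?_, hR0, fun F _ _ _ V P hP A hA => ?_⟩
    · have h1 : (fun b => if b ∈ insert s S then 0 else E b) =
          Function.update (fun b => if b ∈ S then 0 else E b) s 0 := by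
        funext b
        by_cases hb : b = s
        · subst hb
          rw [Function.update_self, if_pos (Finset.mem_insert_self _ _)]
        · rw [Function.update_of_ne hb]
          by_cases hbS : b ∈ S
          · rw [if_pos hbS, if_pos (Finset.mem_insert_of_mem hbS)]
          · rw [if_neg hbS, if_neg]
            intro h2
            rcases Finset.mem_insert.1 h2 with h2 | h2
            · exact hb h2
            · exact hbS h2
      rw [h1]
      exact hR
    · obtain ⟨hcard, hinj⟩ := hA s (Finset.mem_insert_self _ _)
      have hcard' : ((A s).image fun X => X (col s)).card = (A s).card :=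
        Finset.card_image_of_injOn hinj
      obtain ⟨Q0, hQ0, hQne⟩ := hprop F (fun b => (P b (col b)).xRep) hP (V (col s))
        ((A s).image fun X => X (col s)) (by
          rw [hcard']
          exact (le_max_left M M₁).trans_lt hcard)
      obtain ⟨Q, hQ, hQQ0⟩ := Finset.mem_image.1 hQ0
      have hup : (fun b => (Function.update P s Q b (col b)).xRep) =
          Function.update (fun b => (P b (col b)).xRep) s Q0.xRep := by
        funext b
        by_cases hb : b = s
        · subst hb
          rw [Function.update_self, Function.update_self, hQQ0]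
        · rw [Function.update_of_ne hb, Function.update_of_ne hb]
      have hQne' : evl (fun b => (Function.update P s Q b (col b)).xRep) R₁ ≠ 0 := by
        rw [hup]
        exact hQne
      obtain ⟨P', hP'1, hP'2, hP'3⟩ := hprop₁ F V (Function.update P s Q) hQne' A
        (fun b hb => ⟨(le_max_right M M₁).trans_lt (hA b (Finset.mem_insert_of_mem hb)).1,
          (hA b (Finset.mem_insert_of_mem hb)).2⟩)
      refine ⟨P', fun b hb => ?_, fun b hb => ?_, hP'3⟩
      · rcases Finset.mem_insert.1 hb with rfl | hb
        · rw [hP'2 b hs, Function.update_self]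
          exact hQ
        · exact hP'1 b hb
      · have hbs : b ≠ s := fun h => hb (h ▸ Finset.mem_insert_self _ _)
        rw [hP'2 b (fun h => hb (Finset.mem_insert_of_mem h)), Function.update_of_ne hbs]

end Pool.Agent.Lib.MP_17a322_nt.RC
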