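import Pool.Agent.Lib.MP_17a322_nt.RC.T1
import Pool.Agent.Lib.MP_17a322_nt.RC.T2
import Pool.Agent.Lib.MP_17a322_nt.RV.T3

/-!
Nonvanishing after translations from a grid, blocks with colours.
-/

namespace Pool.Agent.Lib.MP_17a322_nt.RC

open MvPolynomial WeierstrassCurve
open Pool.Agent.Lib.MP_17a322_nt.RO Pool.Agent.Lib.MP_17a322_nt.RV

universe u

/-- As RV/T3 `exists_steps`, same proof. -/
theorem exists_steps {K : Type u} [Field K] [CharZero K] {Γ : Type} [DecidableEq Γ]
    (W : Γ → WeierstrassCurve K) [∀ a, (W a).IsElliptic] {B : Type} [Fintype B] [DecidableEq B]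
    (col : B → Γ) (S : Finset B) (k : B → B → ℤ) (hk : ∀ a ∈ S, ∀ b ∈ S, k a b = 0)
    (hcol : ∀ a ∈ S, ∀ b, k a b ≠ 0 → col b = col a) (E : B → ℕ)
    (G : MvPolynomial (B × Fin 2) K) (hG : MH G E) (hG0 : G ≠ 0) :
    ∃ (G' : MvPolynomial (B × Fin 2) K) (E' : B → ℕ), MH G' E' ∧ G' ≠ 0 ∧
      ∀ (F : Type u) [Field F] [DecidableEq F] [Algebra K F] (V : Γ → WeierstrassCurve F),
        (∀ a, (W a).map (algebraMap K F) = V a) → ∀ P : B → ∀ a, (V a).toAffine.Point,
          evl (fun b => (P b (col b)).xRep) G' ≠ 0 →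
            evl (fun b => ((P b + ∑ a ∈ S, k a b • P a) (col b)).xRep) G ≠ 0 := by
  classical
  have key : ∀ S' : Finset B, S' ⊆ S →
      ∃ (G' : MvPolynomial (B × Fin 2) K) (E' : B → ℕ), MH G' E' ∧ G' ≠ 0 ∧
      ∀ (F : Type u) [Field F] [DecidableEq F] [Algebra K F] (V : Γ → WeierstrassCurve F),
        (∀ a, (W a).map (algebraMap K F) = V a) → ∀ P : B → ∀ a, (V a).toAffine.Point,
          evl (fun b => (P b (col b)).xRep) G' ≠ 0 →
            evl (fun b => ((P b + ∑ a ∈ S', k a b • P a) (col b)).xRep) G ≠ 0 := by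
    intro S'
    induction S' using Finset.induction_on with
    | empty =>
      intro _
      refine ⟨G, E, hG, hG0, ?_⟩
      intro F _ _ _ V hV P hP
      simpa using hP
    | insert a S' ha ih =>
      intro hS'
      have haS : a ∈ S := hS' (Finset.mem_insert_self a S')
      have hS'' : S' ⊆ S := fun x hx => hS' (Finset.mem_insert_of_mem hx)
      obtain ⟨G₁, E₁, h1, h2, h3⟩ := ih hS''
      obtain ⟨G', E', h4, h5, h6⟩ :=
        exists_step W col a (k a) (hk a haS a haS) (hcol a haS) E₁ G₁ h1 h2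
      refine ⟨G', E', h4, h5, ?_⟩
      intro F _ _ _ V hV P hP
      have h7 := h6 F V hV P hP
      have h8 := h3 F V hV (fun b => P b + k a b • P a) h7
      have h9 : ∀ b, P b + k a b • P a + ∑ c ∈ S', k c b • (P c + k a c • P a) =
          P b + ∑ c ∈ insert a S', k c b • P c := by
        intro b
        rw [Finset.sum_insert ha, add_assoc]
        congr 2
        refine Finset.sum_congr rfl fun c hc => ?_
        rw [hk a haS c (hS'' hc), zero_smul, add_zero]
      simp only [h9] at h8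
      exact h8
  exact key S (Finset.Subset.refl S)

/-- As RV/T3 `exists_grid`, same proof. -/
theorem exists_grid {K : Type u} [Field K] [CharZero K] {Γ : Type} [DecidableEq Γ]
    (W : Γ → WeierstrassCurve K) [∀ a, (W a).IsElliptic] {B : Type} [Fintype B] [DecidableEq B]
    (col : B → Γ) (S : Finset B) (k : B → B → ℤ) (hk : ∀ a ∈ S, ∀ b ∈ S, k a b = 0)
    (hcol : ∀ a ∈ S, ∀ b, k a b ≠ 0 → col b = col a) (E : B → ℕ)
    (G : MvPolynomial (B × Fin 2) K) (hG : MH G E) (hG0 : G ≠ 0) :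
    ∃ (R : MvPolynomial (B × Fin 2) K) (E' : B → ℕ) (M : ℕ), MH R E' ∧ R ≠ 0 ∧
      (∀ b ∈ S, E' b = 0) ∧
      ∀ (F : Type u) [Field F] [DecidableEq F] [Algebra K F] (V : Γ → WeierstrassCurve F),
        (∀ a, (W a).map (algebraMap K F) = V a) → ∀ P : B → ∀ a, (V a).toAffine.Point,
          evl (fun b => (P b (col b)).xRep) R ≠ 0 →
            ∀ A : B → Finset (∀ a, (V a).toAffine.Point),
              (∀ s ∈ S, M < (A s).card ∧ Set.InjOn (fun X : ∀ a, (V a).toAffine.Point => X (col s))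
                (A s : Set (∀ a, (V a).toAffine.Point))) →
              ∃ P' : B → ∀ a, (V a).toAffine.Point, (∀ s ∈ S, P' s ∈ A s) ∧
                (∀ b ∉ S, P' b = P b + ∑ a ∈ S, k a b • P' a) ∧
                  evl (fun b => (P' b (col b)).xRep) G ≠ 0 := by
  classical
  obtain ⟨G', E', h1, h2, h3⟩ := exists_steps W col S k hk hcol E G hG hG0
  obtain ⟨R, M, h4, h5, h6⟩ := exists_grid_many col S E' G' h1 h2
  refine ⟨R, _, M, h4, h5, fun b hb => if_pos hb, ?_⟩
  intro F _ _ _ V hV P hP A hA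
  obtain ⟨P', h7, h8, h9⟩ := h6 F V P hP A hA
  have hS : ∀ b ∈ S, P' b + ∑ a ∈ S, k a b • P' a = P' b := by
    intro b hb
    rw [Finset.sum_eq_zero, add_zero]
    intro a ha
    rw [hk a ha b hb, zero_smul]
  refine ⟨fun b => P' b + ∑ a ∈ S, k a b • P' a, ?_, ?_, h3 F V hV P' h9⟩
  · intro s hs
    show P' s + ∑ a ∈ S, k a s • P' a ∈ A s
    rw [hS s hs]
    exact h7 s hs
  · intro b hb
    show P' b + ∑ a ∈ S, k a b • P' a = P b + ∑ a ∈ S, k a b • (P' a + ∑ c ∈ S, k c a • P' c)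
    rw [h8 b hb]
    congr 1
    refine Finset.sum_congr rfl fun a ha => ?_
    rw [hS a ha]

end Pool.Agent.Lib.MP_17a322_nt.RC
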