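import Pool.Agent.Lib.MP_17a322_nt.RC.K2b
import Pool.Agent.Lib.MP_17a322_nt.RC.T3
import Pool.Agent.Lib.MP_17a322_nt.RV.M2b

/-!
The bound in a given direction, blocks with colours.
-/

namespace Pool.Agent.Lib.MP_17a322_nt.RC

open MvPolynomial WeierstrassCurve Height
open Pool.Agent.Lib.MP_17a322_nt.RO Pool.Agent.Lib.MP_17a322_nt.RV

universe u

/-- The heights in one row. -/
theorem M2b_row {G : Type*} [AddCommGroup G] (h : G → ℝ) (h0 : h 0 = 0) (hb : ∀ P, 0 ≤ h P)
    (C : ℝ) (hC : ∀ P Q : G, |h (P + Q) + h (P - Q) - 2 * h P - 2 * h Q| ≤ C) {s : ℕ}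
    (j₀ : Fin s) (l : Fin s → ℤ) (P : G) (Q a q : Fin s → G) (CA : ℝ) (hCA : 0 ≤ CA)
    (ha : ∀ j, h (a j) ≤ CA) (hq : ∀ j, j ≠ j₀ → h (q j) ≤ CA)
    (hq0 : q j₀ = P - ∑ j, l j • (Q j + a j) - ∑ j, (if j = j₀ then 0 else q j)) :
    ∑ j, h (q j) ≤ 2 * h (P - ∑ j, l j • Q j) +
      (2 * (2 * 2 ^ s * ((∑ j, (l j : ℝ) ^ 2 + s) * (CA + C)) + C) + C) + s * CA := by
  have hsub : ∀ X Y : G, h (X - Y) ≤ 2 * h X + 2 * h Y + C := fun X Y => by
    have h1 := (abs_le.1 (hC X Y)).2
    have h2 := hb (X + Y)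
    linarith
  have h2 : h (q j₀) ≤ 2 * h (P - ∑ j, l j • Q j) +
      (2 * (2 * 2 ^ s * ((∑ j, (l j : ℝ) ^ 2 + s) * (CA + C)) + C) + C) := by
    have e1 : q j₀ = (P - ∑ j, l j • Q j) -
        (∑ j, l j • a j + ∑ j, (if j = j₀ then 0 else q j)) := by
      rw [hq0]
      simp only [smul_add, Finset.sum_add_distrib]
      abel
    rw [e1]
    have e2 := hsub (P - ∑ j, l j • Q j) (∑ j, l j • a j + ∑ j, (if j = j₀ then 0 else q j))
    have e3 := M2b_sum h h0 hb C hC s l a (fun j => if j = j₀ then 0 else q j) CA ha (by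
        intro j
        by_cases hj : j = j₀
        · simp only [if_pos hj, h0]
          exact hCA
        · simp only [if_neg hj]
          exact hq j hj)
    linarith
  have e1 : ∀ j, h (q j) ≤ (if j = j₀ then h (q j₀) else 0) + CA := by
    intro j
    by_cases hj : j = j₀
    · rw [if_pos hj, hj]
      linarith
    · rw [if_neg hj]
      have := hq j hj
      linarith
  calc ∑ j, h (q j) ≤ ∑ j, ((if j = j₀ then h (q j₀) else 0) + CA) :=
        Finset.sum_le_sum fun j _ => e1 j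
    _ = h (q j₀) + s * CA := by
        rw [Finset.sum_add_distrib, Finset.sum_ite_eq', if_pos (Finset.mem_univ _),
          Finset.sum_const, Finset.card_univ, Fintype.card_fin, nsmul_eq_mul]
    _ ≤ _ := by linarith

/-- As `direction_bound` in RV/M2b; row `i` has the colour `cr i`, column `j` the colour `cc j`, and
`ℓ (i, j) = 0` if they are different.
Proof as in RV/M2b, with `core` of RC/K2b (`J = Fin s`, `cJ = cc`, `B = Fin n × Fin s`, `cB = cr ∘ Prod.fst`,
`c = Prod.snd`) and `exists_grid` of RC/T3 (`col = Sum.elim cc (cr ∘ Prod.fst)`, set `M2b_S j₀`,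
translations `M2b_k j₀ ℓ`: `M2b_k j₀ ℓ a b ≠ 0` implies `col b = col a` by `hℓ`). The sets are
`A.map (addLeftEmbedding (Q j))` for `inl j` and `A` for `inr (i, j)` (the components of the elements of
`A` are different by `hAinj`, also after translation). The estimate of the heights (RV/M2b
`M2b_group`, `M2b_sum`) is done row by row in the group of points of `V (cr i)`: only the components
`cr i` of all elements occur, for the columns `j` with `cc j ≠ cr i` the coefficient `ℓ (i, j)` is `0`, and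
all components of the elements of `A` have small height; for the columns use the component `cc j`. The
constants `Cq` of `parallelogram_unif (W a)` are added over the finitely many colours occurring (or over
rows and columns). -/
theorem direction_bound {K : Type u} [Field K] [NumberField K] {Γ : Type} [DecidableEq Γ]
    [Fintype Γ] (W : Γ → WeierstrassCurve K) [∀ a, (W a).IsElliptic] (n s : ℕ) (hs : 0 < s)
    (cr : Fin n → Γ) (cc : Fin s → Γ) {κ κ' : Type}
    [Fintype κ] [Fintype κ'] (D : Fin n → ℕ) (g : κ → MvPolynomial (Fin n × Fin 2) K)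
    (D' : Fin n × Fin s → ℕ) (g' : κ' → MvPolynomial ((Fin n × Fin s) × Fin 2) K)
    (hg' : ∀ k, MH (g' k) D')
    (hpull : ∃ C : ℝ, 0 ≤ C ∧ ∀ (L : Type u) [Field L] [NumberField L] [DecidableEq L]
      [Algebra K L] (V : Γ → WeierstrassCurve L), (∀ a, (W a).map (algebraMap K L) = V a) →
        ∀ P : Fin n × Fin s → ∀ a, (V a).toAffine.Point,
          (∃ k, evl (fun b' => (P b' (cr b'.1)).xRep) (g' k) ≠ 0) →
            (∃ k, evl (fun b => ((∑ b' : Fin n × Fin s with b'.1 = b, P b') (cr b)).xRep)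
              (g k) ≠ 0) ∧
              dfc D g (fun b => ((∑ b' : Fin n × Fin s with b'.1 = b, P b') (cr b)).xRep) ≤
                dfc D' g' (fun b' => (P b' (cr b'.1)).xRep) + C * Module.finrank ℚ L)
    (d C₁ e₀ : ℕ) (hD' : ∀ i, D' i ≤ e₀) (hilb : Hilb D' g' d C₁ e₀)
    (b : ℕ) (hb : 1 ≤ b) (hbe : e₀ ≤ 2 * (b - 1)) (ℓ : Fin n × Fin s → ℤ)
    (hℓ : ∀ p, ℓ p ≠ 0 → cc p.2 = cr p.1)
    (hcard : 4 ^ Fintype.card (Fin n × Fin s) *
            (∏ j : Fin s, (b + ∑ i : Fin n × Fin s with i.2 = j,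
              2 * (ℓ i).natAbs ^ 2 * b + 1)) *
            (C₁ * (2 * b + 1) ^ d) <
          (b + 1) ^ (Fintype.card (Fin s) + Fintype.card (Fin n × Fin s))) :
    ∃ (R₁ : MvPolynomial (Fin n × Fin 2) K) (E : Fin n → ℕ) (M : ℕ), MH R₁ E ∧ R₁ ≠ 0 ∧
      ∀ CA : ℝ, ∃ C : ℝ, 0 ≤ C ∧ ∀ (L : Type u) [Field L] [NumberField L] [DecidableEq L]
        [Algebra K L] (V : Γ → WeierstrassCurve L), (∀ a, (W a).map (algebraMap K L) = V a) →
        ∀ (P : Fin n → ∀ a, (V a).toAffine.Point) (Q : Fin s → ∀ a, (V a).toAffine.Point)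
          (A : Finset (∀ a, (V a).toAffine.Point)), M < A.card →
          (∀ a, Set.InjOn (fun X : ∀ a, (V a).toAffine.Point => X a)
            (A : Set (∀ a, (V a).toAffine.Point))) →
          (∀ X ∈ A, ∀ a, logHeight (X a).xRep ≤ CA * Module.finrank ℚ L) →
          evl (fun i => (P i (cr i)).xRep) R₁ ≠ 0 →
            dfc D g (fun i => (P i (cr i)).xRep) ≤
              2 * b * (∑ j, logHeight (Q j (cc j)).xRep +
                ∑ i, logHeight ((P i - ∑ j, ℓ (i, j) • Q j) (cr i)).xRep) +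
                  C * Module.finrank ℚ L := by
  classical
  set j₀ : Fin s := ⟨0, hs⟩ with hj₀
  obtain ⟨G, hG, hG0, Cc, hCc, hcore⟩ := core W (J := Fin s) (B := Fin n × Fin s) cc
    (fun p => cr p.1) Prod.snd D' g' hg' d C₁ e₀ hD' hilb ℓ hℓ b hb hbe hcard
  obtain ⟨Cp, hCp, hpl⟩ := hpull
  choose Cq hCq hpar using fun a => parallelogram_unif (W a)
  set Cs : ℝ := ∑ a, Cq a with hCs
  have hCs0 : 0 ≤ Cs := Finset.sum_nonneg fun a _ => hCq a
  have hCqs : ∀ a, Cq a ≤ Cs := fun a =>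
    Finset.single_le_sum (f := Cq) (fun a _ => hCq a) (Finset.mem_univ a)
  set col : Fin s ⊕ (Fin n × Fin s) → Γ := Sum.elim cc (fun p => cr p.1) with hcol
  obtain ⟨R, E', M, hR, hR0, hE', hgrid⟩ := exists_grid W col (M2b_S j₀) (M2b_k j₀ ℓ)
    (by
      intro a _ b' hb'
      rcases b' with j | ⟨i, j⟩
      · rfl
      · rw [M2b_mem_inr] at hb'
        simp [M2b_k, hb'])
    (by
      intro a _ b' hk
      rcases b' with j | ⟨i, j⟩
      · exact absurd rfl hk
      · by_cases hj : j = j₀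
        · rcases a with j' | ⟨i', j'⟩
          · have h1 : ℓ (i, j') ≠ 0 := by
              intro h0
              apply hk
              simp [M2b_k, h0]
            exact (hℓ (i, j') h1).symm
          · by_cases hi : i' = i
            · simp [hcol, hi]
            · exact absurd (by simp [M2b_k, hi]) hk
        · exact absurd (by simp [M2b_k, hj]) hk) (fun _ => b) G hG hG0
  obtain ⟨R₁, hR₁, hR₁0, hres⟩ := exists_restrict n s hs E' R hR hR0
    (fun j => hE' _ (M2b_mem_inl j₀ j)) (fun i j hj => hE' _ ((M2b_mem_inr j₀ i j).2 hj))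
  refine ⟨R₁, fun i => E' (Sum.inr (i, j₀)), M, hR₁, hR₁0, fun CA => ?_⟩
  refine ⟨b * M2b_K ℓ (max CA 0) Cs + Cc + Cp, ?_, ?_⟩
  · have := M2b_K_nonneg ℓ (max CA 0) Cs (le_max_right _ _) hCs0
    positivity
  intro L _ _ _ _ V hV P Q A hA hAinj hAh hne
  set N : ℝ := (Module.finrank ℚ L : ℝ) with hN
  have hN0 : 0 ≤ N := Nat.cast_nonneg _
  have hAh' : ∀ X ∈ A, ∀ a, logHeight (X a).xRep ≤ max CA 0 * N := fun X hX a =>
    (hAh X hX a).trans (mul_le_mul_of_nonneg_right (le_max_left _ _) hN0)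
  have hpar' : ∀ a, ∀ X Y : (V a).toAffine.Point,
      |logHeight (X + Y).xRep + logHeight (X - Y).xRep - 2 * logHeight X.xRep -
        2 * logHeight Y.xRep| ≤ Cs * N := fun a X Y =>
    (hpar a L (V a) (hV a) X Y).trans (mul_le_mul_of_nonneg_right (hCqs a) hN0)
  -- the family on the grid
  set P₀ : Fin s ⊕ (Fin n × Fin s) → ∀ a, (V a).toAffine.Point :=
    Sum.elim (fun _ => 0) (fun p => if p.2 = j₀ then P p.1 else 0) with hP₀
  have hRne : evl (fun b => (P₀ b (col b)).xRep) R ≠ 0 := by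
    rw [← hres L (fun b => (P₀ b (col b)).xRep)]
    have e : (fun i => (P₀ (Sum.inr (i, ⟨0, hs⟩)) (col (Sum.inr (i, ⟨0, hs⟩)))).xRep) =
        fun i => (P i (cr i)).xRep := by
      funext i
      have e1 : P₀ (Sum.inr (i, ⟨0, hs⟩)) = P i := by simp [hP₀, ← hj₀]
      rw [e1]
      rfl
    rw [e]
    exact hne
  obtain ⟨P', hP'A, hP'b, hP'G⟩ := hgrid L V hV P₀ hRne
    (Sum.elim (fun j => A.map (addLeftEmbedding (Q j))) (fun _ => A)) (by
      intro a _
      rcases a with j | p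
      · refine ⟨by simpa using hA, ?_⟩
        intro X hX Y hY hXY
        simp only [Sum.elim_inl, Finset.coe_map, addLeftEmbedding_apply, Set.mem_image,
          Finset.mem_coe] at hX hY
        obtain ⟨X', hX', rfl⟩ := hX
        obtain ⟨Y', hY', rfl⟩ := hY
        have h1 : (Q j + X') (col (Sum.inl j)) = (Q j + Y') (col (Sum.inl j)) := hXY
        rw [Pi.add_apply, Pi.add_apply, add_right_inj] at h1
        rw [hAinj _ (Finset.mem_coe.2 hX') (Finset.mem_coe.2 hY') h1]
      · exact ⟨by simpa using hA, hAinj _⟩)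
  have hQ' : ∀ j, ∃ a ∈ A, Q j + a = P' (Sum.inl j) := by
    intro j
    have h1 := hP'A _ (M2b_mem_inl j₀ j)
    simp only [Sum.elim_inl, Finset.mem_map, addLeftEmbedding_apply] at h1
    exact h1
  choose a haA haQ using hQ'
  have hqA : ∀ i j, j ≠ j₀ → P' (Sum.inr (i, j)) ∈ A := by
    intro i j hj
    have h1 := hP'A _ ((M2b_mem_inr j₀ i j).2 hj)
    simpa using h1
  have hq0 : ∀ i, P' (Sum.inr (i, j₀)) = P i - ∑ j, ℓ (i, j) • (Q j + a j) -
      ∑ j, (if j = j₀ then 0 else P' (Sum.inr (i, j))) := by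
    intro i
    have h1 := hP'b (Sum.inr (i, j₀)) (by rw [M2b_mem_inr]; simp)
    rw [h1, M2b_sum_k]
    have e : P₀ (Sum.inr (i, j₀)) = P i := by simp [hP₀]
    rw [e]
    simp only [haQ]
    abel
  -- the family PP
  set PP : Fin n × Fin s → ∀ a, (V a).toAffine.Point := fun p =>
    ℓ p • P' (Sum.inl p.2) + P' (Sum.inr p) with hPP
  have hPPq : ∀ p, PP p - ℓ p • P' (Sum.inl p.2) = P' (Sum.inr p) := fun p => by
    rw [hPP]
    exact add_sub_cancel_left _ _
  have hPPs : ∀ i, ∑ b' : Fin n × Fin s with b'.1 = i, PP b' = P i := by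
    intro i
    rw [Finset.sum_filter, Fintype.sum_prod_type, Finset.sum_eq_single i]
    · simp only [if_true]
      have e1 : ∑ j, PP (i, j) = ∑ j, ℓ (i, j) • (Q j + a j) + ∑ j, P' (Sum.inr (i, j)) := by
        rw [← Finset.sum_add_distrib]
        exact Finset.sum_congr rfl fun j _ => by rw [haQ]
      have e2 : ∑ j, P' (Sum.inr (i, j)) = P' (Sum.inr (i, j₀)) +
          ∑ j, (if j = j₀ then 0 else P' (Sum.inr (i, j))) := by
        have e3 : ∀ j, P' (Sum.inr (i, j)) = (if j = j₀ then P' (Sum.inr (i, j₀)) else 0) +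
            (if j = j₀ then 0 else P' (Sum.inr (i, j))) := by
          intro j
          by_cases hj : j = j₀
          · simp [hj]
          · simp [hj]
        rw [Finset.sum_congr rfl fun j _ => e3 j, Finset.sum_add_distrib, Finset.sum_ite_eq',
          if_pos (Finset.mem_univ _)]
      rw [e1, e2, hq0 i]
      abel
    · intro i' _ hi'
      exact Finset.sum_eq_zero fun j _ => if_neg hi'
    · intro hi
      exact absurd (Finset.mem_univ _) hi
  have hGne : evl (Sum.elim (fun j => (P' (Sum.inl j) (cc j)).xRep)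
      (fun p => ((PP p - ℓ p • P' (Sum.inl p.2)) (cr p.1)).xRep)) G ≠ 0 := by
    have e : Sum.elim (fun j => (P' (Sum.inl j) (cc j)).xRep)
        (fun p => ((PP p - ℓ p • P' (Sum.inl p.2)) (cr p.1)).xRep) =
          fun b => (P' b (col b)).xRep := by
      funext o
      rcases o with j | p
      · rfl
      · rw [Sum.elim_inr, hPPq]
        rfl
    rw [e]
    exact hP'G
  obtain ⟨hc1, hc2⟩ := hcore L V hV (fun j => P' (Sum.inl j)) PP hGne
  obtain ⟨-, hp2⟩ := hpl L V hV PP hc1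
  simp only [hPPs] at hp2
  simp only [hPPq] at hc2
  -- the columns
  have hcols : ∑ j, logHeight (P' (Sum.inl j) (cc j)).xRep ≤
      2 * ∑ j, logHeight (Q j (cc j)).xRep + s * (2 * (max CA 0 * N) + Cs * N) := by
    calc ∑ j, logHeight (P' (Sum.inl j) (cc j)).xRep
        ≤ ∑ j, (2 * logHeight (Q j (cc j)).xRep + (2 * (max CA 0 * N) + Cs * N)) := by
          refine Finset.sum_le_sum fun j _ => ?_
          rw [← haQ j, Pi.add_apply]
          have h1 := (abs_le.1 (hpar' (cc j) (Q j (cc j)) (a j (cc j)))).2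
          have h2 : 0 ≤ logHeight (Q j (cc j) - a j (cc j)).xRep := logHeight_nonneg _
          have h3 := hAh' _ (haA j) (cc j)
          linarith
      _ = _ := by
          rw [Finset.sum_add_distrib, Finset.sum_const, Finset.card_univ, Fintype.card_fin,
            nsmul_eq_mul, Finset.mul_sum]
  -- the rows
  have hrow : ∀ i, ∑ j, logHeight (P' (Sum.inr (i, j)) (cr i)).xRep ≤
      2 * logHeight ((P i - ∑ j, ℓ (i, j) • Q j) (cr i)).xRep +
        (2 * (2 * 2 ^ s * ((∑ j, (ℓ (i, j) : ℝ) ^ 2 + s) * (max CA 0 * N + Cs * N)) + Cs * N) +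
          Cs * N) + s * (max CA 0 * N) := by
    intro i
    have h1 := M2b_row (fun X : (V (cr i)).toAffine.Point => logHeight X.xRep) (M2b_h0 (V (cr i)))
      (fun X => logHeight_nonneg _) (Cs * N) (hpar' (cr i)) j₀ (fun j => ℓ (i, j)) (P i (cr i))
      (fun j => Q j (cr i)) (fun j => a j (cr i)) (fun j => P' (Sum.inr (i, j)) (cr i))
      (max CA 0 * N) (mul_nonneg (le_max_right _ _) hN0) (fun j => hAh' _ (haA j) _)
      (fun j hj => hAh' _ (hqA i j hj) _) (by
        have h2 := congrFun (hq0 i) (cr i)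
        simp only [Pi.sub_apply, Finset.sum_apply, Pi.smul_apply, Pi.add_apply, ite_apply,
          Pi.zero_apply] at h2
        exact h2)
    have e1 : (P i - ∑ j, ℓ (i, j) • Q j) (cr i) = P i (cr i) - ∑ j, ℓ (i, j) • Q j (cr i) := by
      simp only [Pi.sub_apply, Finset.sum_apply, Pi.smul_apply]
    rw [e1]
    exact h1
  have hrows : ∑ p : Fin n × Fin s, logHeight (P' (Sum.inr p) (cr p.1)).xRep ≤
      2 * ∑ i, logHeight ((P i - ∑ j, ℓ (i, j) • Q j) (cr i)).xRep +
        ∑ i : Fin n, (2 * (2 * 2 ^ s * ((∑ j, (ℓ (i, j) : ℝ) ^ 2 + s) *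
          (max CA 0 * N + Cs * N)) + Cs * N) + Cs * N) + n * (s * (max CA 0 * N)) := by
    rw [Fintype.sum_prod_type]
    calc ∑ i, ∑ j, logHeight (P' (Sum.inr (i, j)) (cr i)).xRep ≤ _ :=
          Finset.sum_le_sum fun i _ => hrow i
      _ = _ := by
          rw [Finset.sum_add_distrib, Finset.sum_add_distrib, Finset.sum_const, Finset.card_univ,
            Fintype.card_fin, nsmul_eq_mul, Finset.mul_sum]
  have hgr : ∑ j, logHeight (P' (Sum.inl j) (cc j)).xRep +
      ∑ p : Fin n × Fin s, logHeight (P' (Sum.inr p) (cr p.1)).xRep ≤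
        2 * (∑ j, logHeight (Q j (cc j)).xRep +
          ∑ i, logHeight ((P i - ∑ j, ℓ (i, j) • Q j) (cr i)).xRep) +
            M2b_K ℓ (max CA 0 * N) (Cs * N) := by
    unfold M2b_K
    linarith
  rw [M2b_K_mul] at hgr
  have hb0 : (0 : ℝ) ≤ b := Nat.cast_nonneg _
  have h5 := mul_le_mul_of_nonneg_left hgr hb0
  calc dfc D g (fun i => (P i (cr i)).xRep) ≤ _ := hp2
    _ ≤ _ := add_le_add_left hc2 _
    _ ≤ _ := by
        rw [mul_add] at h5
        nlinarith [h5]

end Pool.Agent.Lib.MP_17a322_nt.RC
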