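import Pool.Agent.Lib.MP_17a322_nt.RV.S2

/-!
Dimension of the zeros after pulling back by the addition map in one block.
-/

namespace Pool.Agent.Lib.MP_17a322_nt.RC

open MvPolynomial WeierstrassCurve
open Pool.Agent.Lib.MP_17a322_nt.RO Pool.Agent.Lib.MP_17a322_nt.RV

universe u

/-- As `dim_sumForms` in RV/S2. Proof. The proof of RV/S2 works; it is even simpler, since only the
blocks `b₀` and `none` have to be x-coordinates of points (`exists_point`, RO/B1), the other blocks
keep the vectors of the given zero. -/
theorem dim_sumForms {K : Type u} [Field K] [CharZero K] (W : WeierstrassCurve K)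
    [W.IsElliptic] {B κ : Type} [Fintype B] [DecidableEq B] (D : B → ℕ)
    (g : κ → MvPolynomial (B × Fin 2) K) (b₀ : B)
    (g' : κ × κ → MvPolynomial (Option B × Fin 2) K)
    (hg' : ∀ k, MH (g' k) (fun o => 2 * D (o.getD b₀)))
    (hval : ∀ (F : Type u) [Field F] [DecidableEq F] [Algebra K F] (V : WeierstrassCurve F),
        W.map (algebraMap K F) = V → ∀ (z : B → Fin 2 → F) (P A : V.toAffine.Point),
          ∃ γ : F, γ ≠ 0 ∧ ∀ k l,
            evl (pv A.xRep (Function.update z b₀ P.xRep)) (g' (k, l)) =
              γ * (evl (Function.update z b₀ (P + A).xRep) (g k) *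
                    evl (Function.update z b₀ (P - A).xRep) (g l) +
                  evl (Function.update z b₀ (P + A).xRep) (g l) *
                    evl (Function.update z b₀ (P - A).xRep) (g k)))
    (m : ℕ) (hdim : DimLT g m) : DimLT g' (m + 1) := by
  intro F _ _ _ z hz hzero
  classical
  have : CharZero F := charZero_of_injective_algebraMap (algebraMap K F).injective
  obtain ⟨P, cP, hcP, hP⟩ := exists_point (W.map (algebraMap K F)) (z (some b₀)) (hz (some b₀))
  obtain ⟨A, cA, hcA, hA⟩ := exists_point (W.map (algebraMap K F)) (z none) (hz none)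
  set z' : B → Fin 2 → F := fun b => z (some b) with hz'
  set c : Option B → F := fun o => o.elim cA (fun b => if b = b₀ then cP else 1) with hc
  have hc0 : ∀ o, c o ≠ 0 := by
    intro o
    cases o with
    | none => exact hcA
    | some b =>
      simp only [hc, Option.elim_some]
      split_ifs
      · exact hcP
      · exact one_ne_zero
  have hcz : (fun o => c o • pv A.xRep (Function.update z' b₀ P.xRep) o) = z := by
    funext o
    cases o with
    | none => exact hA.symm
    | some b =>
      by_cases hb : b = b₀
      · subst hb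
        have e1 : c (some b) = cP := by simp only [hc, Option.elim_some, if_true]
        have e2 : pv A.xRep (Function.update z' b P.xRep) (some b) = P.xRep := by
          change (Function.update z' b P.xRep) b = P.xRep
          exact Function.update_self _ _ _
        rw [e1, e2]
        exact hP.symm
      · have e1 : c (some b) = 1 := by simp only [hc, Option.elim_some, if_neg hb]
        have e2 : pv A.xRep (Function.update z' b₀ P.xRep) (some b) = z (some b) := by
          change (Function.update z' b₀ P.xRep) b = z (some b)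
          exact Function.update_of_ne hb _ _
        rw [e1, e2, one_smul]
  have h1 : ∀ k l, evl (pv A.xRep (Function.update z' b₀ P.xRep)) (g' (k, l)) = 0 := by
    intro k l
    have h2 := evl_smul _ (g' (k, l)) (hg' (k, l)) c (pv A.xRep (Function.update z' b₀ P.xRep))
    rw [hcz, hzero] at h2
    exact (mul_eq_zero.1 h2.symm).resolve_left
      (Finset.prod_ne_zero_iff.2 fun o _ => pow_ne_zero _ (hc0 o))
  obtain ⟨γ, hγ, hval'⟩ := hval F (W.map (algebraMap K F)) rfl z' P A
  set y : Bool → B → Fin 2 → F := fun s =>
    Function.update z' b₀ (P + sg s A).xRep with hy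
  have hyt : y true = Function.update z' b₀ (P + A).xRep := rfl
  have hyf : y false = Function.update z' b₀ (P - A).xRep := by
    simp only [hy, sg, sub_eq_add_neg]
    rfl
  have h2 : ∀ k l, evl (y true) (g k) * evl (y false) (g l) +
      evl (y true) (g l) * evl (y false) (g k) = 0 := by
    intro k l
    have h3 := hval' k l
    rw [h1] at h3
    rw [hyt, hyf]
    exact (mul_eq_zero.1 h3.symm).resolve_left hγ
  have h3 : ∃ s : Bool, ∀ k, evl (y s) (g k) = 0 := by
    by_cases hall : ∀ k, evl (y true) (g k) = 0
    · exact ⟨true, hall⟩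
    · push Not at hall
      obtain ⟨k, hk⟩ := hall
      have h4 : evl (y false) (g k) = 0 := by
        have h5 := h2 k k
        have h6 : (2 : F) * (evl (y true) (g k) * evl (y false) (g k)) = 0 := by
          linear_combination h5
        exact (mul_eq_zero.1 ((mul_eq_zero.1 h6).resolve_left two_ne_zero)).resolve_left hk
      refine ⟨false, fun l => ?_⟩
      have h5 := h2 k l
      rw [h4, mul_zero, add_zero] at h5
      exact (mul_eq_zero.1 h5).resolve_left hk
  obtain ⟨s, hs⟩ := h3
  have hyb : ∀ b, b ≠ b₀ → y s b = z (some b) := fun b hb => Function.update_of_ne hb _ _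
  have hyb₀ : y s b₀ = (P + sg s A).xRep := Function.update_self _ _ _
  have hy0 : ∀ b, y s b ≠ 0 := by
    intro b
    by_cases hb : b = b₀
    · subst hb
      rw [hyb₀]
      exact Affine.Point.xRep_ne_zero _
    · rw [hyb b hb]
      exact hz _
  obtain ⟨t, htc, ht⟩ := hdim F (y s) hy0 hs
  set F₀ := G5_cl (IntermediateField.adjoin K ((insert (A.xRep 0 / A.xRep 1) t : Finset F) : Set F))
    with hF₀
  have hle : IntermediateField.adjoin K (t : Set F) ≤
      IntermediateField.adjoin K ((insert (A.xRep 0 / A.xRep 1) t : Finset F) : Set F) := by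
    refine IntermediateField.adjoin.mono K _ _ ?_
    intro x hx
    rw [Finset.coe_insert]
    exact Or.inr hx
  have hy1 : ∀ b, y s b 0 / y s b 1 ∈ F₀ := by
    intro b
    rw [hF₀, G5_mem_cl]
    exact S2_mono hle _ (ht b)
  have hA0 : A.xRep 0 / A.xRep 1 ∈ F₀ := by
    refine G5_le_cl _ _ (IntermediateField.subset_adjoin K _ ?_)
    rw [Finset.coe_insert]
    exact Or.inl rfl
  have hAm := S2_mem F₀ A hA0
  have hP0 : P.xRep 0 / P.xRep 1 ∈ F₀ := by
    have h4 : (P + sg s A) + sg (!s) A = P := by
      cases s
      · simp [sg]
      · simp [sg]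
    have hsA : ∀ i, (sg (!s) A).xRep i ∈ F₀ := by
      intro i
      cases s
      · exact hAm i
      · have : (sg (!true) A).xRep = A.xRep := Affine.Point.xRep_neg A
        rw [this]
        exact hAm i
    have h6 := hy1 b₀
    rw [hyb₀] at h6
    have h5 := xRep_add_mem W F₀ (G5_closed _) (P + sg s A) (sg (!s) A) (S2_mem F₀ _ h6) hsA
    rw [h4] at h5
    exact F₀.div_mem (h5 0) (h5 1)
  have hdiv : ∀ (a : F) (v : Fin 2 → F), a ≠ 0 → (a • v) 0 / (a • v) 1 = v 0 / v 1 := by
    intro a v ha
    simp only [Pi.smul_apply, smul_eq_mul]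
    exact mul_div_mul_left _ _ ha
  refine ⟨insert (A.xRep 0 / A.xRep 1) t, ?_, fun o => ?_⟩
  · exact lt_of_le_of_lt (Finset.card_insert_le _ _) (by omega)
  · rw [← G5_mem_cl]
    cases o with
    | none =>
      rw [hA, hdiv cA _ hcA]
      exact hA0
    | some b =>
      by_cases hb : b = b₀
      · subst hb
        rw [hP, hdiv cP _ hcP]
        exact hP0
      · have h6 := hy1 b
        rwa [hyb b hb] at h6

end Pool.Agent.Lib.MP_17a322_nt.RC
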