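import Pool.Agent.Lib.MP_17a322_nt.RV.S3

/-!
Heights after pulling back by the addition map in one block.
-/

namespace Pool.Agent.Lib.MP_17a322_nt.RC

open MvPolynomial WeierstrassCurve Height
open Pool.Agent.Lib.MP_17a322_nt.RO Pool.Agent.Lib.MP_17a322_nt.RV

universe u

/-- As `height_sumForms` in RV/S3, with arbitrary nonzero vectors in the blocks `b ≠ b₀`. Proof as in
RV/S3. -/
theorem height_sumForms {K : Type u} [Field K] [NumberField K] (W : WeierstrassCurve K)
    [W.IsElliptic] {B κ : Type} [Fintype B] [DecidableEq B] [Fintype κ] (D : B → ℕ)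
    (g : κ → MvPolynomial (B × Fin 2) K) (hg : ∀ k, MH (g k) D) (b₀ : B)
    (g' : κ × κ → MvPolynomial (Option B × Fin 2) K)
    (hval : ∀ (F : Type u) [Field F] [DecidableEq F] [Algebra K F] (V : WeierstrassCurve F),
        W.map (algebraMap K F) = V → ∀ (z : B → Fin 2 → F) (P A : V.toAffine.Point),
          ∃ γ : F, γ ≠ 0 ∧ ∀ k l,
            evl (pv A.xRep (Function.update z b₀ P.xRep)) (g' (k, l)) =
              γ * (evl (Function.update z b₀ (P + A).xRep) (g k) *
                    evl (Function.update z b₀ (P - A).xRep) (g l) +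
                  evl (Function.update z b₀ (P + A).xRep) (g l) *
                    evl (Function.update z b₀ (P - A).xRep) (g k))) :
    ∃ C : ℝ, 0 ≤ C ∧ ∀ (L : Type u) [Field L] [NumberField L] [DecidableEq L] [Algebra K L]
      (V : WeierstrassCurve L), W.map (algebraMap K L) = V →
        ∀ (z : B → Fin 2 → L) (P A : V.toAffine.Point), (∀ b, z b ≠ 0) →
          (∃ k, evl (pv A.xRep (Function.update z b₀ P.xRep)) (g' k) ≠ 0) →
            (∃ k, evl (Function.update z b₀ (P + A).xRep) (g k) ≠ 0) ∧
              dfc D g (Function.update z b₀ (P + A).xRep) ≤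
                dfc (fun o : Option B => 2 * D (o.getD b₀)) g'
                  (pv A.xRep (Function.update z b₀ P.xRep)) + C * Module.finrank ℚ L := by
  classical
  obtain ⟨C₁, hC₁, h1⟩ := logHeight_linear_unif (K := K) (ι := κ × κ) (κ := κ × κ)
    (fun p => (if p.1 = p.2 then 1 else 0) + (if (p.1.2, p.1.1) = p.2 then 1 else 0))
  obtain ⟨C₂, hC₂, h2⟩ := logHeight_evl_unif g D hg
  obtain ⟨C₃, hC₃, h3⟩ := parallelogram_unif W
  refine ⟨C₁ + C₂ + D b₀ * C₃, by positivity, ?_⟩
  intro L _ _ _ _ V hV z P A hz hne
  obtain ⟨γ, hγ, hv⟩ := hval L V hV z P A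
  have hgy : ∀ k l, evl (pv A.xRep (Function.update z b₀ P.xRep)) (g' (k, l)) ≠ 0 →
      (fun k => evl (Function.update z b₀ (P + A).xRep) (g k)) ≠ 0 ∧
      (fun k => evl (Function.update z b₀ (P - A).xRep) (g k)) ≠ 0 := by
    intro k l hk
    rw [hv] at hk
    constructor
    · intro h0
      apply hk
      have e1 := congrFun h0 k
      have e2 := congrFun h0 l
      simp only [Pi.zero_apply] at e1 e2
      rw [e1, e2, zero_mul, zero_mul, add_zero, mul_zero]
    · intro h0
      apply hk
      have e1 := congrFun h0 k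
      have e2 := congrFun h0 l
      simp only [Pi.zero_apply] at e1 e2
      rw [e1, e2, mul_zero, mul_zero, add_zero, mul_zero]
  obtain ⟨⟨k, l⟩, hkl⟩ := hne
  obtain ⟨hy0, hy0'⟩ := hgy k l hkl
  refine ⟨?_, ?_⟩
  · by_contra hc
    push Not at hc
    exact hy0 (funext hc)
  have e1 := h1 L (fun ij : κ × κ =>
    evl (Function.update z b₀ (P + A).xRep) (g ij.1) *
      evl (Function.update z b₀ (P - A).xRep) (g ij.2))
  have e2 := logHeight_fun_mul_eq hy0 hy0'
  have e3 := h2 L (Function.update z b₀ (P - A).xRep)
    (fun b => by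
      by_cases hb : b = b₀
      · subst hb
        rw [Function.update_self]
        exact WeierstrassCurve.Affine.Point.xRep_ne_zero _
      · rw [Function.update_of_ne hb]
        exact hz b)
  have e4 := h3 L V hV P A
  have e5 : logHeight (fun kl => evl (pv A.xRep (Function.update z b₀ P.xRep)) (g' kl)) =
      logHeight (fun kl : κ × κ => ∑ ij : κ × κ, algebraMap K L
        ((if kl = ij then 1 else 0) + (if (kl.2, kl.1) = ij then 1 else 0)) *
        (evl (Function.update z b₀ (P + A).xRep) (g ij.1) *
          evl (Function.update z b₀ (P - A).xRep) (g ij.2))) := by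
    rw [← logHeight_smul_eq_logHeight (fun kl : κ × κ => ∑ ij : κ × κ, algebraMap K L
        ((if kl = ij then 1 else 0) + (if (kl.2, kl.1) = ij then 1 else 0)) *
        (evl (Function.update z b₀ (P + A).xRep) (g ij.1) *
          evl (Function.update z b₀ (P - A).xRep) (g ij.2))) hγ]
    congr 1
    funext kl
    obtain ⟨k, l⟩ := kl
    rw [hv, Pi.smul_apply, smul_eq_mul]
    congr 1
    simp only [map_add, add_mul, Finset.sum_add_distrib, apply_ite (algebraMap K L), map_one,
      map_zero, ite_mul, one_mul, zero_mul, Finset.sum_ite_eq, Finset.mem_univ, if_true]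
  have e6 : ∀ b, (D b : ℝ) * logHeight (Function.update z b₀ (P + A).xRep b) +
      (D b : ℝ) * logHeight (Function.update z b₀ (P - A).xRep b) ≤
      2 * D b * logHeight (Function.update z b₀ P.xRep b) + (if b = b₀ then 2 * D b₀ * logHeight A.xRep +
        D b₀ * C₃ * Module.finrank ℚ L else 0) := by
    intro b
    by_cases hb : b = b₀
    · subst hb
      rw [if_pos rfl, Function.update_self, Function.update_self, Function.update_self]
      have e7 := (abs_le.1 e4).2
      have e8 : (0 : ℝ) ≤ D b := Nat.cast_nonneg _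
      have e9 := mul_le_mul_of_nonneg_left e7 e8
      nlinarith
    · rw [if_neg hb, Function.update_of_ne hb, Function.update_of_ne hb, Function.update_of_ne hb]
      linarith
  have e7 := Finset.sum_le_sum fun b (_ : b ∈ Finset.univ) => e6 b
  rw [Finset.sum_add_distrib, Finset.sum_add_distrib, Finset.sum_ite_eq' Finset.univ b₀,
    if_pos (Finset.mem_univ _)] at e7
  unfold dfc
  rw [e5, Fintype.sum_option]
  simp only [pv, Option.getD_none, Option.getD_some, Option.elim, Nat.cast_mul, Nat.cast_ofNat]
  simp only [] at e1 e2 e3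
  nlinarith

end Pool.Agent.Lib.MP_17a322_nt.RC
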