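import Pool.Agent.Lib.MP_17a322_nt.RC.S1
import Pool.Agent.Lib.MP_17a322_nt.RC.S2
import Pool.Agent.Lib.MP_17a322_nt.RC.S3
import Pool.Agent.Lib.MP_17a322_nt.RV.S4

/-!
Pulling back forms by a sum map, blocks with colours.
-/

namespace Pool.Agent.Lib.MP_17a322_nt.RC

open MvPolynomial WeierstrassCurve Height
open Pool.Agent.Lib.MP_17a322_nt.RO Pool.Agent.Lib.MP_17a322_nt.RV

universe u

/-- The conclusion for one map of blocks. -/
def S4_PB {K : Type u} [Field K] [NumberField K] {Γ : Type} (W : Γ → WeierstrassCurve K)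
    {B κ : Type} [Fintype B] [DecidableEq B] [Fintype κ] (col : B → Γ) (D : B → ℕ)
    (g : κ → MvPolynomial (B × Fin 2) K) (m : ℕ)
    (B' : Type) [Fintype B'] [DecidableEq B'] (π : B' → B) : Prop :=
    ∃ (κ' : Type) (_ : Fintype κ') (D' : B' → ℕ) (g' : κ' → MvPolynomial (B' × Fin 2) K),
      (∀ k, MH (g' k) D') ∧ DimLT g' (m + (Fintype.card B' - Fintype.card B)) ∧
        ∃ C : ℝ, 0 ≤ C ∧ ∀ (L : Type u) [Field L] [NumberField L] [DecidableEq L] [Algebra K L]
          (V : Γ → WeierstrassCurve L), (∀ a, (W a).map (algebraMap K L) = V a) →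
          ∀ P : B' → ∀ a, (V a).toAffine.Point,
            (∃ k, evl (fun b' => (P b' (col (π b'))).xRep) (g' k) ≠ 0) →
              (∃ k, evl (fun b => ((∑ b' with π b' = b, P b') (col b)).xRep) (g k) ≠ 0) ∧
                dfc D g (fun b => ((∑ b' with π b' = b, P b') (col b)).xRep) ≤
                  dfc D' g' (fun b' => (P b' (col (π b'))).xRep) + C * Module.finrank ℚ L

theorem S4_equiv {K : Type u} [Field K] [NumberField K] {Γ : Type} (W : Γ → WeierstrassCurve K)
    {B κ : Type} [Fintype B] [DecidableEq B] [Fintype κ] (col : B → Γ) (D : B → ℕ)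
    (g : κ → MvPolynomial (B × Fin 2) K) (hg : ∀ k, MH (g k) D) (m : ℕ) (hdim : DimLT g m)
    (B' : Type) [Fintype B'] [DecidableEq B'] (π : B' → B) (hπ : Function.Bijective π) :
    S4_PB W col D g m B' π := by
  set e : B' ≃ B := Equiv.ofBijective π hπ with he
  refine ⟨κ, inferInstance, fun b => D (e b), fun k => S4_ren e (g k),
    fun k => S4_mh e D (g k) (hg k), ?_, 0, le_rfl, ?_⟩
  · rw [Fintype.card_congr e, Nat.sub_self, add_zero]
    exact S4_dim e g m hdim
  · intro L _ _ _ _ V hV P hP
    have h1 : ∀ b, ∑ b' with π b' = b, P b' = P (e.symm b) := by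
      intro b
      have h2 : (Finset.univ.filter fun b' => π b' = b) = {e.symm b} := by
        ext b'
        rw [Finset.mem_filter, Finset.mem_singleton, Equiv.eq_symm_apply]
        exact ⟨fun h => h.2, fun h => ⟨Finset.mem_univ _, h⟩⟩
      rw [h2, Finset.sum_singleton]
    have h3 : ∀ b, π (e.symm b) = b := fun b => e.apply_symm_apply b
    simp only [h1]
    have h4 : (fun b => ((P (e.symm b) (col (π (e.symm b)))).xRep)) =
        fun b => (P (e.symm b) (col b)).xRep := by
      funext b
      rw [h3]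
    refine ⟨?_, ?_⟩
    · obtain ⟨k, hk⟩ := hP
      rw [S4_evl, h4] at hk
      exact ⟨k, hk⟩
    · rw [S4_dfc, zero_mul, add_zero, h4]

theorem S4_step {K : Type u} [Field K] [NumberField K] {Γ : Type} (W : Γ → WeierstrassCurve K)
    [∀ a, (W a).IsElliptic]
    {B κ : Type} [Fintype B] [DecidableEq B] [Fintype κ] (col : B → Γ) (D : B → ℕ)
    (g : κ → MvPolynomial (B × Fin 2) K) (m : ℕ)
    (B' : Type) [Fintype B'] [DecidableEq B'] (π : B' → B) (b₂ : B')
    (b₁ : {b' // b' ≠ b₂}) (h : π b₁ = π b₂)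
    (hcard : Fintype.card B ≤ Fintype.card {b' // b' ≠ b₂})
    (ih : S4_PB W col D g m {b' // b' ≠ b₂} (fun b => π b)) :
    S4_PB W col D g m B' π := by
  obtain ⟨κ'', _, D'', g'', hg'', hdim'', C, hC, hlow⟩ := ih
  obtain ⟨g₃, hg₃, hval⟩ := exists_sumForms (W (col (π b₁))) D'' g'' hg'' b₁
  have hdim₃ := dim_sumForms (W (col (π b₁))) D'' g'' b₁ g₃ hg₃ hval _ hdim''
  obtain ⟨C₃, hC₃, hh⟩ := height_sumForms (W (col (π b₁))) D'' g'' hg'' b₁ g₃ hval
  set e : B' ≃ Option {b' // b' ≠ b₂} := (Equiv.optionSubtypeNe b₂).symm with he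
  refine ⟨κ'' × κ'', inferInstance, fun b => 2 * D'' ((e b).getD b₁),
    fun k => S4_ren e (g₃ k), fun k => S4_mh e _ (g₃ k) (hg₃ k), ?_, C + C₃, add_nonneg hC hC₃, ?_⟩
  · have h1 : Fintype.card B' = Fintype.card {b' // b' ≠ b₂} + 1 := by
      rw [Fintype.card_congr e, Fintype.card_option]
    have h2 : m + (Fintype.card B' - Fintype.card B) =
        m + (Fintype.card {b' // b' ≠ b₂} - Fintype.card B) + 1 := by omega
    rw [h2]
    exact S4_dim e g₃ _ hdim₃
  · intro L _ _ _ _ V hV P hP
    set z : {b' // b' ≠ b₂} → Fin 2 → L := fun b => (P b (col (π b))).xRep with hz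
    have hx : (fun b => (P (e.symm b) (col (π (e.symm b)))).xRep) =
        pv (P b₂ (col (π b₁))).xRep
          (Function.update z b₁ (P b₁ (col (π b₁))).xRep) := by
      have h0 : Function.update z b₁ (P b₁ (col (π b₁))).xRep = z := Function.update_eq_self b₁ z
      rw [h0, h]
      funext o
      cases o with
      | none => rfl
      | some b => rfl
    have hu : Function.update z b₁ (P b₁ (col (π b₁)) + P b₂ (col (π b₁))).xRep =
        fun b'' => (Function.update (fun b'' : {b' // b' ≠ b₂} => P b'') b₁ (P b₁ + P b₂) b''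
          (col (π b''))).xRep := by
      funext b''
      by_cases e1 : b'' = b₁
      · subst e1
        rw [Function.update_self, Function.update_self]
        rfl
      · rw [Function.update_of_ne e1, Function.update_of_ne e1]
    obtain ⟨k, hk⟩ := hP
    rw [S4_evl, hx] at hk
    obtain ⟨h1, h2⟩ := hh L (V (col (π b₁))) (hV _) z (P b₁ (col (π b₁))) (P b₂ (col (π b₁)))
      (fun b => Affine.Point.xRep_ne_zero _) ⟨k, hk⟩
    rw [hu] at h1 h2
    obtain ⟨h3, h4⟩ := hlow L V hV _ h1
    simp only [S4_sum π b₂ b₁ h P] at h3 h4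
    refine ⟨h3, h4.trans ?_⟩
    have h5 : dfc (fun b => 2 * D'' ((e b).getD b₁)) (fun k => S4_ren e (g₃ k))
        (fun b' => (P b' (col (π b'))).xRep) =
          dfc (fun o : Option {b' // b' ≠ b₂} => 2 * D'' (o.getD b₁)) g₃
          (pv (P b₂ (col (π b₁))).xRep
            (Function.update z b₁ (P b₁ (col (π b₁))).xRep)) := by
      rw [← hx]
      exact S4_dfc e (fun o : Option {b' // b' ≠ b₂} => 2 * D'' (o.getD b₁)) g₃ _
    rw [h5]
    linarith

theorem S4_aux {K : Type u} [Field K] [NumberField K] {Γ : Type} (W : Γ → WeierstrassCurve K)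
    [∀ a, (W a).IsElliptic]
    {B κ : Type} [Fintype B] [DecidableEq B] [Fintype κ] (col : B → Γ) (D : B → ℕ)
    (g : κ → MvPolynomial (B × Fin 2) K) (hg : ∀ k, MH (g k) D) (m : ℕ) (hdim : DimLT g m)
    (n : ℕ) : ∀ (B' : Type) [Fintype B'] [DecidableEq B'] (π : B' → B),
      Function.Surjective π → Fintype.card B' = n → S4_PB W col D g m B' π := by
  induction n with
  | zero =>
    intro B' _ _ π hπ hn
    have : IsEmpty B' := Fintype.card_eq_zero_iff.1 hn
    exact S4_equiv W col D g hg m hdim B' π ⟨fun a => isEmptyElim a, hπ⟩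
  | succ n ih =>
    intro B' _ _ π hπ hn
    by_cases hinj : Function.Injective π
    · exact S4_equiv W col D g hg m hdim B' π ⟨hinj, hπ⟩
    · unfold Function.Injective at hinj
      push Not at hinj
      obtain ⟨b₁, b₂, h12, hne⟩ := hinj
      have hsur : Function.Surjective (fun b : {b' // b' ≠ b₂} => π b) := by
        intro b
        obtain ⟨b', hb'⟩ := hπ b
        by_cases e : b' = b₂
        · exact ⟨⟨b₁, hne⟩, by rw [← hb', e]; exact h12⟩
        · exact ⟨⟨b', e⟩, hb'⟩
      have hc : Fintype.card {b' // b' ≠ b₂} = n := by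
        have h1 : Fintype.card B' = Fintype.card {b' // b' ≠ b₂} + 1 := by
          rw [Fintype.card_congr (Equiv.optionSubtypeNe b₂).symm, Fintype.card_option]
        omega
      exact S4_step W col D g m B' π b₂ ⟨b₁, hne⟩ h12 (Fintype.card_le_of_surjective _ hsur)
        (ih _ _ hsur hc)

/-- As `exists_pullback` in RV/S4 for blocks with colours: the colour of a block `b'` is `col (π b')`, and
the points are elements of the product of the groups (see RC/E).
Proof. The induction of RV/S4; in each step the two blocks `b₁ ≠ b₂` with `π b₁ = π b₂` have the same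
colour `a = col (π b₁)`, and RC/S1, RC/S2, RC/S3 are applied with the curve `W a`, the component `a` of
the points and the vectors `z b` of the other blocks (for `P'' = P` restricted with `P'' b₁` replaced by
`P b₁ + P b₂` the family of x-coordinates is `Function.update z b₁ ((P b₁ + P b₂) a).xRep`). -/
theorem exists_pullback {K : Type u} [Field K] [NumberField K] {Γ : Type}
    (W : Γ → WeierstrassCurve K) [∀ a, (W a).IsElliptic] {B κ : Type} [Fintype B] [DecidableEq B]
    [Fintype κ] (col : B → Γ) (D : B → ℕ)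
    (g : κ → MvPolynomial (B × Fin 2) K) (hg : ∀ k, MH (g k) D) (m : ℕ) (hdim : DimLT g m)
    (B' : Type) [Fintype B'] [DecidableEq B'] (π : B' → B) (hπ : Function.Surjective π) :
    ∃ (κ' : Type) (_ : Fintype κ') (D' : B' → ℕ) (g' : κ' → MvPolynomial (B' × Fin 2) K),
      (∀ k, MH (g' k) D') ∧ DimLT g' (m + (Fintype.card B' - Fintype.card B)) ∧
        ∃ C : ℝ, 0 ≤ C ∧ ∀ (L : Type u) [Field L] [NumberField L] [DecidableEq L] [Algebra K L]
          (V : Γ → WeierstrassCurve L), (∀ a, (W a).map (algebraMap K L) = V a) →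
          ∀ P : B' → ∀ a, (V a).toAffine.Point,
            (∃ k, evl (fun b' => (P b' (col (π b'))).xRep) (g' k) ≠ 0) →
              (∃ k, evl (fun b => ((∑ b' with π b' = b, P b') (col b)).xRep) (g k) ≠ 0) ∧
                dfc D g (fun b => ((∑ b' with π b' = b, P b') (col b)).xRep) ≤
                  dfc D' g' (fun b' => (P b' (col (π b'))).xRep) + C * Module.finrank ℚ L :=
  S4_aux W col D g hg m hdim _ B' π hπ rfl

end Pool.Agent.Lib.MP_17a322_nt.RC
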