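import Pool.Agent.Lib.MP_17a322_nt.RV.U5

/-!
A maximal independent subfamily with bounded coefficients, for points with colours.
-/

namespace Pool.Agent.Lib.MP_17a322_nt.RC

open Pool.Agent.Lib.MP_17a322_nt.RV

/-- `exists_span_basis` of RV/U5 for a family indexed by a finite type. -/
theorem U5_one {A : Type*} [AddCommGroup A] {I : Type} [Fintype I] (r : ℕ) (Q : I → A)
    (h : Module.finrank ℤ (Submodule.span ℤ (Set.range Q)) ≤ r) :
    ∃ (σ : Fin (min r (Fintype.card I)) → I) (m : ℕ)
      (c : I → Fin (min r (Fintype.card I)) → ℤ), 0 < m ∧ (∀ i j, |c i j| ≤ (m : ℤ)) ∧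
        ∀ i, m • Q i = ∑ j, c i j • Q (σ j) := by
  classical
  rcases isEmpty_or_nonempty I with hI | hI
  · have h0 : Fintype.card I = 0 := Fintype.card_eq_zero
    have h1 : IsEmpty (Fin (min r (Fintype.card I))) := by
      rw [h0, Nat.min_zero]; infer_instance
    exact ⟨fun j => h1.elim j, 1, fun i => hI.elim i, one_pos, fun i => hI.elim i,
      fun i => hI.elim i⟩
  · have e : I ≃ Fin (Fintype.card I) := Fintype.equivFin I
    have hr : Set.range (fun k => Q (e.symm k)) = Set.range Q := by
      ext x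
      constructor
      · rintro ⟨k, rfl⟩
        exact ⟨_, rfl⟩
      · rintro ⟨k, rfl⟩
        exact ⟨e k, by simp⟩
    obtain ⟨s, m, c, hm, hc, hs⟩ := RV.exists_span_basis (Fintype.card I)
      (min r (Fintype.card I)) Fintype.card_pos (fun k => Q (e.symm k)) (by
        rw [hr]
        exact le_min h (finrank_range_le_card Q))
    refine ⟨fun j => e.symm (s j), m, fun i => c (e i), hm, fun i j => hc _ _, fun i => ?_⟩
    have h2 := hs (e i)
    simpa using h2

/-- As `exists_span_basis` in RV/U5, with colours. The colours `cc` of the `s` columns do not depend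
on the points: `min (r a) n_a` columns of colour `a`, `n_a` the number of rows of colour `a`.
Proof. `Fin s` is equivalent to `Σ a, Fin (min (r a) n_a)` (`hs`, `Fintype.card_sigma`,
`Fintype.equivFinOfCardEq`); `cc` is the first component. Given `P`, for every colour `a` with `n_a > 0`
apply `RV.exists_span_basis` to the family of the `P i a`, `cr i = a`, indexed by `Fin n_a` through an
equivalence with `{i // cr i = a}`, with `r := min (r a) n_a` (the rank of the span of `n_a` elements is
at most `n_a`, `finrank_span_le_card` or `finrank_range_le_card`); it gives `σ_a`, `m_a`, `c_a`. For a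
column of colour `a` there is a row of colour `a`, as `n_a > 0`. Take `m = ∏ m_a` over the colours with
`n_a > 0`, and for `i` of colour `a`, `j` the column `(a, t)`: `c i j = (m / m_a) * c_a i t`, and
`c i j = 0` if the colours are different. The identity `m • P i = ∑ j, c i j • P (σ j)` is checked
component by component: in the component `a = cr i` it is the one of `RV.exists_span_basis` multiplied
by `m / m_a`; in the component `a' ≠ cr i` both sides are `0` by `hP` (`P i a' = 0`; `c i j = 0` unless
`cr (σ j) = cc j = cr i ≠ a'`, and then `P (σ j) a' = 0`). -/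
theorem exists_span_basis {Γ : Type} [Fintype Γ] [DecidableEq Γ] (n : ℕ) (cr : Fin n → Γ)
    (r : Γ → ℕ) (s : ℕ)
    (hs : s = ∑ a, min (r a) (Finset.univ.filter (fun i => cr i = a)).card) :
    ∃ cc : Fin s → Γ, ∀ {A : Γ → Type*} [∀ a, AddCommGroup (A a)] (P : Fin n → ∀ a, A a),
      (∀ i a, a ≠ cr i → P i a = 0) →
      (∀ a, Module.finrank ℤ (Submodule.span ℤ
        (Set.range fun i : {i // cr i = a} => P i a)) ≤ r a) →
      ∃ (σ : Fin s → Fin n) (m : ℕ) (c : Fin n → Fin s → ℤ), (∀ j, cr (σ j) = cc j) ∧ 0 < m ∧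
        (∀ i j, |c i j| ≤ (m : ℤ)) ∧ (∀ i j, c i j ≠ 0 → cc j = cr i) ∧
          ∀ i, m • P i = ∑ j, c i j • P (σ j) := by
  classical
  have hcard : ∀ a, Fintype.card {i // cr i = a} =
      (Finset.univ.filter (fun i => cr i = a)).card := fun a => Fintype.card_subtype _
  have hs' : Fintype.card (Σ a, Fin (min (r a) (Fintype.card {i // cr i = a}))) = s := by
    rw [Fintype.card_sigma, hs]
    refine Finset.sum_congr rfl fun a _ => ?_
    rw [Fintype.card_fin, hcard]
  let e : (Σ a, Fin (min (r a) (Fintype.card {i // cr i = a}))) ≃ Fin s :=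
    Fintype.equivFinOfCardEq hs'
  refine ⟨fun j => (e.symm j).1, ?_⟩
  intro A _ P hP hr
  have h1 := fun a => U5_one (r a) (fun i : {i // cr i = a} => P i a) (hr a)
  choose σ m c hm hc hσ using h1
  let C : Fin n → (Σ a, Fin (min (r a) (Fintype.card {i // cr i = a}))) → ℤ := fun i p =>
    if h : cr i = p.1 then ((∏ a ∈ Finset.univ.erase p.1, m a : ℕ) : ℤ) * c p.1 ⟨i, h⟩ p.2 else 0
  refine ⟨fun j => (σ (e.symm j).1 (e.symm j).2).1, ∏ a, m a, fun i j => C i (e.symm j),
    fun j => (σ (e.symm j).1 (e.symm j).2).2, Finset.prod_pos fun a _ => hm a, ?_, ?_, ?_⟩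
  · intro i j
    simp only [C]
    split_ifs with h
    · rw [abs_mul, Nat.abs_cast, ← Finset.prod_erase_mul _ _ (Finset.mem_univ (e.symm j).1)]
      push_cast
      exact mul_le_mul_of_nonneg_left (hc _ _ _)
        (Finset.prod_nonneg fun a _ => Int.natCast_nonneg _)
    · rw [abs_zero]
      exact Int.natCast_nonneg _
  · intro i j h
    simp only [C] at h
    by_contra hne
    exact h (dif_neg fun h' => hne h'.symm)
  · intro i
    have h2 : ∑ j, C i (e.symm j) • P (σ (e.symm j).1 (e.symm j).2).1 =
        ∑ p, C i p • P (σ p.1 p.2).1 :=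
      Equiv.sum_comp e.symm (fun p => C i p • P (σ p.1 p.2).1)
    rw [h2, Fintype.sum_sigma]
    have h3 : ∀ a ∈ Finset.univ, a ≠ cr i →
        ∑ u : Fin (min (r a) (Fintype.card {i // cr i = a})), C i ⟨a, u⟩ • P (σ a u).1 = 0 := by
      intro a _ ha
      refine Finset.sum_eq_zero fun u _ => ?_
      have : C i ⟨a, u⟩ = 0 := dif_neg fun h' => ha h'.symm
      rw [this, zero_smul]
    rw [Finset.sum_eq_single (cr i) h3 (fun h => absurd (Finset.mem_univ _) h)]
    have h4 : ∀ u, C i ⟨cr i, u⟩ =
        ((∏ a ∈ Finset.univ.erase (cr i), m a : ℕ) : ℤ) * c (cr i) ⟨i, rfl⟩ u :=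
      fun u => dif_pos rfl
    simp only [h4]
    funext b
    rw [Finset.sum_apply]
    by_cases hb : b = cr i
    · subst hb
      have h5 := hσ (cr i) ⟨i, rfl⟩
      simp only at h5
      rw [Pi.smul_apply, ← Finset.prod_erase_mul _ _ (Finset.mem_univ (cr i)), mul_smul, h5,
        Finset.smul_sum]
      refine Finset.sum_congr rfl fun u _ => ?_
      rw [Pi.smul_apply, mul_smul, natCast_zsmul]
    · rw [Pi.smul_apply, hP i b hb, smul_zero]
      symm
      refine Finset.sum_eq_zero fun u _ => ?_
      have h6 : b ≠ cr (σ (cr i) u).1 := by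
        rw [(σ (cr i) u).2]; exact hb
      rw [Pi.smul_apply, hP _ b h6, smul_zero]

end Pool.Agent.Lib.MP_17a322_nt.RC
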