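import Pool.Agent.Lib.MP_17a322_nt.RV.U6

/-!
Division points over a number field, several curves.
-/

namespace Pool.Agent.Lib.MP_17a322_nt.RC

open MvPolynomial WeierstrassCurve
open Pool.Agent.Lib.MP_17a322_nt.RO Pool.Agent.Lib.MP_17a322_nt.RV

universe u

/-- As `exists_field` in RV/U6, for finitely many curves at once. Proof as in RV/U6: take all the
points over `Ω = AlgebraicClosure L` and let `L'` be generated by the coordinates of all of them. -/
theorem exists_field {K L : Type u} [Field K] [Field L] [NumberField L] [DecidableEq L]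
    [Algebra K L] {Γ : Type} [Fintype Γ] (W : Γ → WeierstrassCurve K) [∀ a, (W a).IsElliptic]
    (s N M : ℕ) (hN : 0 < N) (P : Fin s → ∀ a, ((W a).map (algebraMap K L)).toAffine.Point) :
    ∃ (L' : Type u) (_ : Field L') (_ : NumberField L') (_ : DecidableEq L') (_ : Algebra L L')
      (_ : Algebra K L') (_ : IsScalarTower K L L')
      (f : ∀ a, ((W a).map (algebraMap K L)).toAffine.Point →+
        ((W a).map (algebraMap K L')).toAffine.Point)
      (Q : Fin s → ∀ a, ((W a).map (algebraMap K L')).toAffine.Point)
      (A : Fin (M + 1) → ∀ a, ((W a).map (algebraMap K L')).toAffine.Point),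
      (∀ a P i, (f a P).xRep i = algebraMap L L' (P.xRep i)) ∧
        (∀ j a, N • Q j a = f a (P j a)) ∧ ∀ ν a, (A ν a).xRep = ![((ν : ℕ) : L'), 1] := by
  classical
  let Ω := AlgebraicClosure L
  let _ : DecidableEq Ω := Classical.decEq _
  let g : ∀ a, ((W a).map (algebraMap K L)).toAffine.Point →+
      ((W a).map (algebraMap K Ω)).toAffine.Point := fun a =>
    Affine.Point.map (W' := (W a).toAffine) (IsScalarTower.toAlgHom K L Ω)
  choose Q hQ using fun j a => exists_division_point (W a) Ω N hN (g a (P j a))
  have hA : ∀ (ν : Fin (M + 1)) (a : Γ), ∃ A : ((W a).map (algebraMap K Ω)).toAffine.Point,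
      A.xRep = ![((ν : ℕ) : Ω), 1] := by
    intro ν a
    obtain ⟨A, c, hc, hA⟩ := exists_point ((W a).map (algebraMap K Ω)) ![((ν : ℕ) : Ω), 1] (by
      intro h
      have := congrFun h 1
      simp at this)
    refine ⟨A, ?_⟩
    cases A with
    | zero =>
      have := congrFun hA 1
      rw [← Affine.Point.zero_def] at this
      simp at this
    | some x y h =>
      have h1 := congrFun hA 1
      have h0 := congrFun hA 0
      simp at h1 h0
      rw [← h1, one_mul] at h0
      simp [h0]
  choose A hA using hA
  let co : ∀ a, ((W a).map (algebraMap K Ω)).toAffine.Point → Set Ω := fun a R =>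
    match R with
    | .zero => ∅
    | .some x y _ => {x, y}
  have hco : ∀ a R, (co a R).Finite := by
    intro a R
    cases R with
    | zero => exact Set.finite_empty
    | some x y h => exact Set.toFinite {x, y}
  let S : Set Ω := (⋃ j, ⋃ a, co a (Q j a)) ∪ ⋃ ν, ⋃ a, co a (A ν a)
  have hS : S.Finite :=
    (Set.finite_iUnion fun j => Set.finite_iUnion fun a => hco a _).union
      (Set.finite_iUnion fun ν => Set.finite_iUnion fun a => hco a _)
  let L' : IntermediateField L Ω := IntermediateField.adjoin L S
  have : Finite S := hS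
  have hfin : FiniteDimensional L L' :=
    IntermediateField.finiteDimensional_adjoin fun x _ =>
      (AlgebraicClosure.isAlgebraic L).isAlgebraic x |>.isIntegral
  have : NumberField L' := NumberField.of_module_finite L L'
  let v : L' →ₐ[K] Ω := (L'.val).restrictScalars K
  have hlift : ∀ (a : Γ) (R : ((W a).map (algebraMap K Ω)).toAffine.Point), co a R ⊆ S →
      ∃ R₀ : ((W a).map (algebraMap K L')).toAffine.Point,
        Affine.Point.map (W' := (W a).toAffine) v R₀ = R := by
    intro a R hR
    cases R with
    | zero => exact ⟨0, rfl⟩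
    | some x y h =>
      have hx : x ∈ L' := IntermediateField.subset_adjoin L S (hR (Or.inl rfl))
      have hy : y ∈ L' := IntermediateField.subset_adjoin L S (hR (Or.inr rfl))
      have hns := ((W a).toAffine.baseChange_nonsingular v.injective
        (⟨x, hx⟩ : L') (⟨y, hy⟩ : L')).mp h
      exact ⟨Affine.Point.some _ _ hns, rfl⟩
  choose Q' hQ' using fun j a => hlift a (Q j a)
    (fun z hz => Or.inl (Set.mem_iUnion.2 ⟨j, Set.mem_iUnion.2 ⟨a, hz⟩⟩))
  choose A' hA' using fun ν a => hlift a (A ν a)
    (fun z hz => Or.inr (Set.mem_iUnion.2 ⟨ν, Set.mem_iUnion.2 ⟨a, hz⟩⟩))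
  let f : ∀ a, ((W a).map (algebraMap K L)).toAffine.Point →+
      ((W a).map (algebraMap K L')).toAffine.Point := fun a =>
    Affine.Point.map (W' := (W a).toAffine) (IsScalarTower.toAlgHom K L L')
  have hfg : ∀ a R, Affine.Point.map (W' := (W a).toAffine) v (f a R) = g a R := by
    intro a R
    cases R with
    | zero => rfl
    | some x y h => rfl
  refine ⟨L', inferInstance, inferInstance, inferInstance, inferInstance, inferInstance,
    inferInstance, f, Q', A', ?_, ?_, ?_⟩
  · intro a R i
    cases R with
    | zero =>
      have h : (f a (Affine.Point.zero)).xRep = ![1, 0] := rfl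
      rw [h]
      fin_cases i
      · exact (map_one _).symm
      · exact (map_zero _).symm
    | some x y h =>
      have h : (f a (Affine.Point.some x y h)).xRep = ![algebraMap L L' x, 1] := rfl
      rw [h]
      fin_cases i
      · rfl
      · exact (map_one _).symm
  · intro j a
    apply Affine.Point.map_injective (W' := (W a).toAffine) v
    have e := (Affine.Point.map (W' := (W a).toAffine) v).map_nsmul N (Q' j a)
    refine e.trans ?_
    have e2 : N • (Affine.Point.map (W' := (W a).toAffine) v) (Q' j a) = N • Q j a :=
      congrArg (fun R => N • R) (hQ' j a)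
    exact e2.trans ((hQ j a).trans (hfg a _).symm)
  · intro ν a
    have h1 := hA ν a
    rw [← hA' ν a] at h1
    cases hR : A' ν a with
    | zero =>
      rw [hR] at h1
      have h2 : (0 : Ω) = 1 := congrFun h1 1
      exact absurd h2 zero_ne_one
    | some x y h =>
      rw [hR] at h1
      have h3 : v x = v ((ν : ℕ) : L') := by
        rw [map_natCast]
        exact congrFun h1 0
      have h4 := v.injective h3
      rw [Affine.Point.xRep_some, h4]

end Pool.Agent.Lib.MP_17a322_nt.RC
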