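import Pool.Agent.Lib.MP_17a322_nt.RC.M2b
import Pool.Agent.Lib.MP_17a322_nt.RC.S4
import Pool.Agent.Lib.MP_17a322_nt.RC.U5
import Pool.Agent.Lib.MP_17a322_nt.RC.U6
import Pool.Agent.Lib.MP_17a322_nt.RV.M3

/-!
The inequality for all points, with colours.
-/

namespace Pool.Agent.Lib.MP_17a322_nt.RC

open MvPolynomial WeierstrassCurve Height
open Pool.Agent.Lib.MP_17a322_nt.RO Pool.Agent.Lib.MP_17a322_nt.RV

universe u

/-- Quadratic forms for the curves of all colours, and their sum. -/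
theorem M3_quad {K : Type u} [Field K] [NumberField K] {Γ : Type} [Fintype Γ]
    (W : Γ → WeierstrassCurve K) [∀ a, (W a).IsElliptic] :
    ∃ Cp : ℝ, 0 ≤ Cp ∧ ∀ (L : Type u) [Field L] [NumberField L] [DecidableEq L] [Algebra K L],
      ∃ q : ∀ a, ((W a).map (algebraMap K L)).toAffine.Point → ℝ,
        (∀ a X, |q a X - logHeight X.xRep| ≤ Cp * Module.finrank ℚ L) ∧ (∀ a X, 0 ≤ q a X) ∧
          (∀ a, q a 0 = 0) ∧
          ∀ a X Y, q a (X + Y) + q a (X - Y) = 2 * q a X + 2 * q a Y := by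
  choose Cf hCf hpar using fun a => parallelogram_unif (W a)
  refine ⟨∑ a, Cf a, Finset.sum_nonneg fun a _ => hCf a, ?_⟩
  intro L _ _ _ _
  have hex := fun a => exists_quadratic_explicit
    (fun P : ((W a).map (algebraMap K L)).toAffine.Point => logHeight P.xRep)
    (by
      rw [Affine.Point.xRep_zero]
      have := logHeight₁_zero (K := L)
      rw [logHeight₁_eq_logHeight, logHeight_swap] at this
      exact this)
    (fun P => logHeight_nonneg _) (Cf a * Module.finrank ℚ L) (hpar a L _ rfl)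
  choose q hq1 hq2 hq3 using hex
  refine ⟨q, fun a X => (hq1 a X).trans ?_, hq2, fun a => ?_, hq3⟩
  · exact mul_le_mul_of_nonneg_right
      (Finset.single_le_sum (f := Cf) (fun a _ => hCf a) (Finset.mem_univ a)) (Nat.cast_nonneg _)
  · have := quadratic_zsmul (q a) (hq3 a) 0 0
    simpa using this

/-- The case `s = 0`. -/
theorem M3_zero {K : Type u} [Field K] [NumberField K] {Γ : Type} [Fintype Γ] [DecidableEq Γ]
    (W : Γ → WeierstrassCurve K) [∀ a, (W a).IsElliptic] (n : ℕ) (cr : Fin n → Γ) (r : Γ → ℕ)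
    (hs : 0 = ∑ a, min (r a) (Finset.univ.filter (fun i => cr i = a)).card)
    {κ : Type} [Fintype κ] (D : Fin n → ℕ)
    (g : κ → MvPolynomial (Fin n × Fin 2) K)
    (ε : ℝ) (hε : 0 < ε) :
    ∃ C : ℝ,
      ∀ (L : Type u) [Field L] [NumberField L] [DecidableEq L] [Algebra K L]
        (P : Fin n → ∀ a, ((W a).map (algebraMap K L)).toAffine.Point),
        (∀ i a, a ≠ cr i → P i a = 0) →
        (∀ a, Module.finrank ℤ (Submodule.span ℤ
          (Set.range fun i : {i // cr i = a} => P i a)) ≤ r a) →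
            dfc D g (fun i => (P i (cr i)).xRep) ≤
              ε * ∑ i, logHeight (P i (cr i)).xRep + C * Module.finrank ℚ L := by
  obtain ⟨Cp, hCp, hquad⟩ := M3_quad W
  obtain ⟨cc, hcc⟩ := exists_span_basis n cr r 0 hs
  refine ⟨∑ i, (D i : ℝ) * Cp, ?_⟩
  intro L _ _ _ _ P hP0 hP
  obtain ⟨q, hq1, hq2, hq0, hq3⟩ := hquad L
  obtain ⟨σ, m, c, _, hm, _, _, hrel⟩ := hcc P hP0 hP
  have h1 : ∀ i, logHeight (P i (cr i)).xRep ≤ Cp * Module.finrank ℚ L := by
    intro i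
    have h2 : (m : ℤ) • P i (cr i) = 0 := by
      have := congrFun (hrel i) (cr i)
      rw [natCast_zsmul]
      simpa using this
    have h3 := quadratic_zsmul (q (cr i)) (hq3 _) (P i (cr i)) m
    rw [h2, hq0] at h3
    have h5 : q (cr i) (P i (cr i)) = 0 := by
      have h6 : ((m : ℤ) : ℝ) ^ 2 ≠ 0 := by
        have : (m : ℝ) ≠ 0 := by exact_mod_cast hm.ne'
        push_cast
        positivity
      rcases mul_eq_zero.mp h3.symm with h | h
      · exact absurd h h6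
      · exact h
    have h7 := hq1 (cr i) (P i (cr i))
    rw [h5, zero_sub, abs_neg] at h7
    exact (le_abs_self _).trans h7
  unfold dfc
  have h8 : ∑ i, (D i : ℝ) * logHeight (P i (cr i)).xRep ≤
      ∑ i, (D i : ℝ) * (Cp * Module.finrank ℚ L) :=
    Finset.sum_le_sum fun i _ => mul_le_mul_of_nonneg_left (h1 i) (Nat.cast_nonneg _)
  have h9 : ∑ i, (D i : ℝ) * (Cp * Module.finrank ℚ L) =
      (∑ i, (D i : ℝ) * Cp) * Module.finrank ℚ L := by
    rw [Finset.sum_mul]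
    refine Finset.sum_congr rfl fun i _ => ?_
    ring
  have h10 : 0 ≤ ε * ∑ i, logHeight (P i (cr i)).xRep :=
    mul_nonneg hε.le (Finset.sum_nonneg fun _ _ => logHeight_nonneg _)
  have h11 := logHeight_nonneg (fun k => evl (fun i => (P i (cr i)).xRep) (g k))
  linarith

/-- The theorem for families supported in the component of their colour. -/
theorem M3_supp {K : Type u} [Field K] [NumberField K] {Γ : Type} [Fintype Γ] [DecidableEq Γ]
    (W : Γ → WeierstrassCurve K) [∀ a, (W a).IsElliptic] (n : ℕ) (cr : Fin n → Γ) (r : Γ → ℕ)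
    (s : ℕ) (hs : s = ∑ a, min (r a) (Finset.univ.filter (fun i => cr i = a)).card)
    (hsn : s < n) {κ : Type} [Fintype κ] (D : Fin n → ℕ)
    (g : κ → MvPolynomial (Fin n × Fin 2) K) (hg : ∀ k, MH (g k) D) (hdim : DimLT g (n - s))
    (ε : ℝ) (hε : 0 < ε) :
    ∃ (R : MvPolynomial (Fin n × Fin 2) K) (E : Fin n → ℕ), MH R E ∧ R ≠ 0 ∧ ∃ C : ℝ,
      ∀ (L : Type u) [Field L] [NumberField L] [DecidableEq L] [Algebra K L]
        (P : Fin n → ∀ a, ((W a).map (algebraMap K L)).toAffine.Point),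
        (∀ i a, a ≠ cr i → P i a = 0) →
        (∀ a, Module.finrank ℤ (Submodule.span ℤ
          (Set.range fun i : {i // cr i = a} => P i a)) ≤ r a) →
          evl (fun i => (P i (cr i)).xRep) R ≠ 0 →
            dfc D g (fun i => (P i (cr i)).xRep) ≤
              ε * ∑ i, logHeight (P i (cr i)).xRep + C * Module.finrank ℚ L := by
  classical
  obtain ⟨Cp, hCp, hquad⟩ := M3_quad W
  have hn : 0 < n := by omega
  rcases Nat.eq_zero_or_pos s with hs0 | hs0
  · subst hs0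
    obtain ⟨C, hC⟩ := M3_zero W n cr r hs D g ε hε
    refine ⟨1, fun _ => 0, isWeightedHomogeneous_one _ _, one_ne_zero, C, ?_⟩
    intro L _ _ _ _ P hP0 hP _
    exact hC L P hP0 hP
  obtain ⟨cc, hcc⟩ := exists_span_basis n cr r s hs
  obtain ⟨κ', hκ', D', g', hg', hdim', hpull⟩ := exists_pullback W cr D g hg (n - s) hdim
    (Fin n × Fin s) Prod.fst (fun i => ⟨(i, ⟨0, hs0⟩), rfl⟩)
  obtain ⟨d, hd⟩ : ∃ d, d + s + 1 = n * s := by
    refine ⟨n * s - s - 1, ?_⟩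
    have : (s + 1) * s ≤ n * s := Nat.mul_le_mul_right s hsn
    nlinarith [Nat.sub_add_cancel (show s + 1 ≤ n * s by nlinarith),
      show n * s - s - 1 = n * s - (s + 1) by omega]
  have hdd : n - s + (Fintype.card (Fin n × Fin s) - Fintype.card (Fin n)) = d + 1 := by
    rw [Fintype.card_prod, Fintype.card_fin, Fintype.card_fin]
    have : n * 1 ≤ n * s := Nat.mul_le_mul_left n hs0
    omega
  rw [hdd] at hdim'
  obtain ⟨C₁, e₀, hD', hilb⟩ := hilbert D' g' hg' d hdim'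
  obtain ⟨C₂, hC₂⟩ := exists_degree n s d C₁ e₀ hs0 hsn hd
  set K₀ : ℝ := (n + 1) * s * 2 ^ s with hK₀
  have hK₀0 : 0 ≤ K₀ := by positivity
  obtain ⟨k, hk1, hk2⟩ : ∃ k : ℕ, 1 ≤ k ∧ 2 * (C₂ : ℝ) * K₀ ≤ ε * (k : ℝ) ^ 2 := by
    obtain ⟨k, hk⟩ := exists_nat_gt (2 * (C₂ : ℝ) * K₀ / ε + 1)
    have h0 : 0 ≤ 2 * (C₂ : ℝ) * K₀ / ε := by positivity
    have h1 : (1 : ℝ) < k := by linarith
    refine ⟨k, by exact_mod_cast h1.le, ?_⟩
    have h2 : 2 * (C₂ : ℝ) * K₀ / ε ≤ (k : ℝ) ^ 2 := by nlinarith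
    rw [div_le_iff₀ hε] at h2
    linarith
  obtain ⟨b, hb1, hb2, hb3, hb4⟩ := hC₂ k hk1
  set N : ℕ := k ^ (s + 1) with hN
  have hN0 : 0 < N := pow_pos hk1 _
  have hNcast : (N : ℤ) = (k : ℤ) ^ (s + 1) := by rw [hN]; push_cast; rfl
  set S : Finset (Fin n × Fin s → ℤ) :=
    (Fintype.piFinset (fun _ => Finset.Icc (-(N : ℤ)) N)).filter
      (fun ℓ => ∀ p, ℓ p ≠ 0 → cc p.2 = cr p.1) with hS
  have hSmem : ∀ ℓ ∈ S, ∀ i, |ℓ i| ≤ (k : ℤ) ^ (s + 1) := by
    intro ℓ hℓ i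
    rw [hS, Finset.mem_filter, Fintype.mem_piFinset] at hℓ
    have := hℓ.1 i
    rw [Finset.mem_Icc] at this
    rw [← hNcast]
    exact abs_le.mpr this
  have hScol : ∀ ℓ ∈ S, ∀ p, ℓ p ≠ 0 → cc p.2 = cr p.1 := by
    intro ℓ hℓ
    rw [hS, Finset.mem_filter] at hℓ
    exact hℓ.2
  have hdb := fun ℓ : {ℓ // ℓ ∈ S} => direction_bound W n s hs0 cr cc D g D' g' hg' hpull d C₁ e₀
    hD' hilb b hb1 hb2 ℓ.1 (hScol ℓ.1 ℓ.2) (hb4 ℓ.1 (hSmem ℓ.1 ℓ.2))
  choose Rf Ef Mf hMH hne hbd using hdb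
  set M : ℕ := ∑ ℓ, Mf ℓ with hM
  have hMle : ∀ ℓ, Mf ℓ ≤ M := fun ℓ =>
    Finset.single_le_sum (f := Mf) (fun _ _ => Nat.zero_le _) (Finset.mem_univ ℓ)
  obtain ⟨CA, hCA0, hCA⟩ := M3_CA.{u} M
  choose Cf hCf0 hCf using fun ℓ => hbd ℓ CA
  refine ⟨∏ ℓ, Rf ℓ, ∑ ℓ, Ef ℓ, IsWeightedHomogeneous.prod _ _ _ (fun ℓ _ => hMH ℓ),
    Finset.prod_ne_zero_iff.mpr (fun ℓ _ => hne ℓ),
    ε * n * Cp + 2 * b * (s + n) * Cp + ∑ ℓ, Cf ℓ, ?_⟩
  intro L _ _ _ _ P hP0 hP hR
  obtain ⟨σ, m, c, hσ, hm, hc, hccol, hrel⟩ := hcc P hP0 hP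
  obtain ⟨ℓ₁, hℓ1', hℓ2'⟩ := exists_round n s N m hm c hc
  set ℓ₀ : Fin n → Fin s → ℤ := fun i j => if c i j = 0 then 0 else ℓ₁ i j with hℓ₀
  have hℓ1 : ∀ i j, |ℓ₀ i j| ≤ (N : ℤ) := by
    intro i j
    simp only [hℓ₀]
    split_ifs with h
    · simp
    · exact hℓ1' i j
  have hℓ2 : ∀ i j, |N * c i j - m * ℓ₀ i j| ≤ (m : ℤ) := by
    intro i j
    simp only [hℓ₀]
    split_ifs with h
    · simp [h]
    · exact hℓ2' i j
  have hℓ3 : ∀ i j, ℓ₀ i j ≠ 0 → cc j = cr i := by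
    intro i j h
    apply hccol i j
    intro h0
    apply h
    simp [hℓ₀, h0]
  set ℓ : Fin n × Fin s → ℤ := fun p => ℓ₀ p.1 p.2 with hℓ
  have hℓS : ℓ ∈ S := by
    rw [hS, Finset.mem_filter, Fintype.mem_piFinset]
    refine ⟨fun i => ?_, fun p hp => hℓ3 p.1 p.2 hp⟩
    rw [Finset.mem_Icc]
    exact abs_le.mp (hℓ1 i.1 i.2)
  obtain ⟨L', iF, iN, iD, iA, iA', iT, f, Q, A, hf, hQ, hA⟩ :=
    exists_field W s N M hN0 (fun j => P (σ j))
  -- the finite set of shifts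
  have hAinj : ∀ a : Γ, ∀ ν ν', A ν a = A ν' a → ν = ν' := by
    intro a ν ν' h
    have h1 := hA ν a
    rw [h, hA ν' a] at h1
    have h2 := congrFun h1 0
    simp only [Matrix.cons_val_zero] at h2
    exact Fin.ext (Nat.cast_injective h2).symm
  have hAinj' : Function.Injective A := by
    intro ν ν' h
    exact hAinj (cr ⟨0, hn⟩) ν ν' (congrFun h _)
  have hAcard : (Finset.univ.image A).card = M + 1 := by
    rw [Finset.card_image_of_injective _ hAinj', Finset.card_univ, Fintype.card_fin]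
  have hAset : ∀ a : Γ, Set.InjOn (fun X : ∀ a, ((W a).map (algebraMap K L')).toAffine.Point =>
      X a) (Finset.univ.image A : Finset _) := by
    intro a X hX Y hY hXY
    rw [Finset.mem_coe, Finset.mem_image] at hX hY
    obtain ⟨ν, _, rfl⟩ := hX
    obtain ⟨ν', _, rfl⟩ := hY
    rw [hAinj a ν ν' hXY]
  have hAh : ∀ X ∈ Finset.univ.image A, ∀ a, logHeight (X a).xRep ≤ CA * Module.finrank ℚ L' := by
    intro X hX a
    obtain ⟨ν, _, rfl⟩ := Finset.mem_image.mp hX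
    rw [hA ν a]
    exact hCA L' ν (Nat.lt_succ_iff.mp ν.2)
  -- the points over `L'`
  set fP : Fin n → ∀ a, ((W a).map (algebraMap K L')).toAffine.Point :=
    fun i a => f a (P i a) with hfP
  -- nonvanishing
  have hevl : ∀ R : MvPolynomial (Fin n × Fin 2) K, evl (fun i => (fP i (cr i)).xRep) R =
      algebraMap L L' (evl (fun i => (P i (cr i)).xRep) R) := by
    intro R
    unfold evl
    rw [← MvPolynomial.aeval_algebraMap_apply]
    congr 1
    congr 1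
    funext p
    exact hf (cr p.1) (P p.1 (cr p.1)) p.2
  have hRℓ : evl (fun i => (fP i (cr i)).xRep) (Rf ⟨ℓ, hℓS⟩) ≠ 0 := by
    rw [hevl]
    intro h0
    apply hR
    have h1 : evl (fun i => (P i (cr i)).xRep) (Rf ⟨ℓ, hℓS⟩) = 0 :=
      (map_eq_zero (algebraMap L L')).mp h0
    show evl (fun i => (P i (cr i)).xRep) (∏ ℓ, Rf ℓ) = 0
    unfold evl at h1 ⊢
    rw [map_prod]
    exact Finset.prod_eq_zero (Finset.mem_univ _) h1
  have hmain := hCf ⟨ℓ, hℓS⟩ L' (fun a => (W a).map (algebraMap K L')) (fun _ => rfl) fP Q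
    (Finset.univ.image A) (by rw [hAcard]; exact Nat.lt_succ_of_le (hMle _)) hAset hAh hRℓ
  -- the quadratic form
  set w : ℝ := (Module.finrank ℚ L' : ℝ) with hw
  have hw0 : 0 ≤ w := Nat.cast_nonneg _
  obtain ⟨qa, hq1, hqa2, hqa0, hqa3⟩ := hquad L'
  set q : (∀ a, ((W a).map (algebraMap K L')).toAffine.Point) → ℝ := fun X => ∑ a, qa a (X a)
    with hq
  have hq2 : ∀ X, 0 ≤ q X := fun X => Finset.sum_nonneg fun a _ => hqa2 a _
  have hq3 : ∀ X Y, q (X + Y) + q (X - Y) = 2 * q X + 2 * q Y := by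
    intro X Y
    simp only [hq, Pi.add_apply, Pi.sub_apply]
    rw [← Finset.sum_add_distrib, Finset.mul_sum, Finset.mul_sum, ← Finset.sum_add_distrib]
    exact Finset.sum_congr rfl fun a _ => hqa3 a _ _
  have hup : ∀ (X : ∀ a, ((W a).map (algebraMap K L')).toAffine.Point) (a : Γ),
      logHeight (X a).xRep ≤ q X + Cp * w := by
    intro X a
    have h1 := (abs_le.mp (hq1 a (X a))).1
    have h2 : qa a (X a) ≤ q X :=
      Finset.single_le_sum (f := fun a => qa a (X a)) (fun a _ => hqa2 a _) (Finset.mem_univ a)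
    linarith
  have hlo : ∀ i, q (fP i) ≤ logHeight (fP i (cr i)).xRep + Cp * w := by
    intro i
    have h1 := (abs_le.mp (hq1 (cr i) (fP i (cr i)))).2
    have h2 : q (fP i) = qa (cr i) (fP i (cr i)) := by
      simp only [hq]
      refine Finset.sum_eq_single (cr i) (fun a _ ha => ?_) (fun h => absurd (Finset.mem_univ _) h)
      rw [hfP]
      simp only
      rw [hP0 i a ha, map_zero, hqa0]
    rw [h2]
    linarith
  have hgeo := height_round q hq2 hq3 n s N m hN0 hm fP σ c ℓ₀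
    (by
      intro i
      funext a
      have h1 := congrArg (f a) (congrFun (hrel i) a)
      simp only [Pi.smul_apply, Finset.sum_apply, map_nsmul, map_sum, map_zsmul] at h1 ⊢
      exact h1) Q
    (by
      intro j
      funext a
      exact hQ j a) hℓ2
  have hNk : (b : ℝ) / (N : ℝ) ^ 2 ≤ C₂ / (k : ℝ) ^ 2 := by
    have hk0 : (0 : ℝ) < k := by exact_mod_cast hk1
    have h1 : (N : ℝ) ^ 2 = (k : ℝ) ^ (2 * s) * (k : ℝ) ^ 2 := by
      rw [hN]
      push_cast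
      rw [← pow_mul, ← pow_add]
      congr 1
      ring
    have h2 : (b : ℝ) ≤ C₂ * (k : ℝ) ^ (2 * s) := by exact_mod_cast hb3
    rw [h1, div_le_div_iff₀ (by positivity) (by positivity)]
    calc (b : ℝ) * (k : ℝ) ^ 2 ≤ (C₂ * (k : ℝ) ^ (2 * s)) * (k : ℝ) ^ 2 :=
          mul_le_mul_of_nonneg_right h2 (by positivity)
      _ = C₂ * ((k : ℝ) ^ (2 * s) * (k : ℝ) ^ 2) := by ring
  set H : ℝ := ∑ i, logHeight (fP i (cr i)).xRep with hH
  have hH0 : 0 ≤ H := Finset.sum_nonneg fun _ _ => logHeight_nonneg _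
  have hqH : ∑ i, q (fP i) ≤ H + n * (Cp * w) := by
    calc ∑ i, q (fP i) ≤ ∑ i : Fin n, (logHeight (fP i (cr i)).xRep + Cp * w) :=
          Finset.sum_le_sum fun i _ => hlo i
      _ = H + n * (Cp * w) := by
          rw [Finset.sum_add_distrib, Finset.sum_const, Finset.card_univ, Fintype.card_fin,
            nsmul_eq_mul]
  have hqH0 : 0 ≤ ∑ i, q (fP i) := Finset.sum_nonneg fun _ _ => hq2 _
  have hsmall : 2 * (b : ℝ) * (K₀ / (N : ℝ) ^ 2 * ∑ i, q (fP i)) ≤ ε * (H + n * (Cp * w)) := by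
    have h1 : 2 * (b : ℝ) * (K₀ / (N : ℝ) ^ 2 * ∑ i, q (fP i)) =
        (2 * K₀ * ((b : ℝ) / (N : ℝ) ^ 2)) * ∑ i, q (fP i) := by ring
    have h2 : 2 * K₀ * ((b : ℝ) / (N : ℝ) ^ 2) ≤ ε := by
      have hk0 : (0 : ℝ) < (k : ℝ) ^ 2 := by
        have : (0 : ℝ) < k := by exact_mod_cast hk1
        positivity
      calc 2 * K₀ * ((b : ℝ) / (N : ℝ) ^ 2) ≤ 2 * K₀ * (C₂ / (k : ℝ) ^ 2) :=
            mul_le_mul_of_nonneg_left hNk (by positivity)
        _ = (2 * (C₂ : ℝ) * K₀) / (k : ℝ) ^ 2 := by ring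
        _ ≤ ε := by
            rw [div_le_iff₀ hk0]
            exact hk2
    rw [h1]
    calc (2 * K₀ * ((b : ℝ) / (N : ℝ) ^ 2)) * ∑ i, q (fP i) ≤ ε * ∑ i, q (fP i) :=
          mul_le_mul_of_nonneg_right h2 hqH0
      _ ≤ ε * (H + n * (Cp * w)) := mul_le_mul_of_nonneg_left hqH hε.le
  have hQs : ∑ j, logHeight (Q j (cc j)).xRep ≤ ∑ j, q (Q j) + s * (Cp * w) := by
    calc ∑ j, logHeight (Q j (cc j)).xRep ≤ ∑ j : Fin s, (q (Q j) + Cp * w) :=
          Finset.sum_le_sum fun i _ => hup _ _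
      _ = ∑ j, q (Q j) + s * (Cp * w) := by
          rw [Finset.sum_add_distrib, Finset.sum_const, Finset.card_univ, Fintype.card_fin,
            nsmul_eq_mul]
  have hRs : ∑ i, logHeight ((fP i - ∑ j, ℓ (i, j) • Q j) (cr i)).xRep ≤
      ∑ i, q (fP i - ∑ j, ℓ₀ i j • Q j) + n * (Cp * w) := by
    calc ∑ i, logHeight ((fP i - ∑ j, ℓ (i, j) • Q j) (cr i)).xRep
        ≤ ∑ i : Fin n, (q (fP i - ∑ j, ℓ₀ i j • Q j) + Cp * w) :=
          Finset.sum_le_sum fun i _ => hup _ _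
      _ = ∑ i, q (fP i - ∑ j, ℓ₀ i j • Q j) + n * (Cp * w) := by
          rw [Finset.sum_add_distrib, Finset.sum_const, Finset.card_univ, Fintype.card_fin,
            nsmul_eq_mul]
  have hCfle : Cf ⟨ℓ, hℓS⟩ ≤ ∑ ℓ, Cf ℓ :=
    Finset.single_le_sum (f := Cf) (fun ℓ _ => hCf0 ℓ) (Finset.mem_univ _)
  have hb0 : (0 : ℝ) ≤ 2 * b := by positivity
  have hfinal : dfc D g (fun i => (fP i (cr i)).xRep) ≤
      ε * H + (ε * n * Cp + 2 * b * (s + n) * Cp + ∑ ℓ, Cf ℓ) * w := by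
    have h1 : 2 * (b : ℝ) * (∑ j, logHeight (Q j (cc j)).xRep +
        ∑ i, logHeight ((fP i - ∑ j, ℓ (i, j) • Q j) (cr i)).xRep) ≤
        2 * b * (K₀ / (N : ℝ) ^ 2 * ∑ i, q (fP i) + (s + n) * (Cp * w)) := by
      refine mul_le_mul_of_nonneg_left ?_ hb0
      linarith
    have h2 : Cf ⟨ℓ, hℓS⟩ * w ≤ (∑ ℓ, Cf ℓ) * w := mul_le_mul_of_nonneg_right hCfle hw0
    have h3 : 2 * (b : ℝ) * (K₀ / (N : ℝ) ^ 2 * ∑ i, q (fP i) + (s + n) * (Cp * w)) =
        2 * (b : ℝ) * (K₀ / (N : ℝ) ^ 2 * ∑ i, q (fP i)) + 2 * b * (s + n) * Cp * w := by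
      ring
    have h4 : ε * (H + n * (Cp * w)) = ε * H + ε * n * Cp * w := by ring
    have h5 : ε * H + (ε * n * Cp + 2 * b * (s + n) * Cp + ∑ ℓ, Cf ℓ) * w =
        ε * H + ε * n * Cp * w + 2 * b * (s + n) * Cp * w + (∑ ℓ, Cf ℓ) * w := by ring
    rw [h5]
    linarith
  -- base change
  have hbase := M3_dfc (L := L) (L' := L') D g (fun i => (P i (cr i)).xRep)
    (fun i => (fP i (cr i)).xRep) (fun i j => hf (cr i) (P i (cr i)) j)
  have hHb : H = Module.finrank L L' * ∑ i, logHeight (P i (cr i)).xRep := by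
    rw [hH, Finset.mul_sum]
    refine Finset.sum_congr rfl fun i _ => ?_
    rw [← logHeight_algebraMap]
    congr 1
    funext j
    exact hf (cr i) (P i (cr i)) j
  have hwb : w = Module.finrank L L' * Module.finrank ℚ L := by
    rw [hw, ← Module.finrank_mul_finrank ℚ L L']
    push_cast
    ring
  have hfin : Module.Finite L L' := Module.Finite.of_restrictScalars_finite ℚ L L'
  have hpos : (0 : ℝ) < Module.finrank L L' := by
    exact_mod_cast Module.finrank_pos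
  rw [hbase, hHb, hwb] at hfinal
  have h6 : (Module.finrank L L' : ℝ) * dfc D g (fun i => (P i (cr i)).xRep) ≤
      Module.finrank L L' * (ε * ∑ i, logHeight (P i (cr i)).xRep +
        (ε * n * Cp + 2 * b * (s + n) * Cp + ∑ ℓ, Cf ℓ) * Module.finrank ℚ L) := by
    refine hfinal.trans (le_of_eq ?_)
    ring
  exact le_of_mul_le_mul_left h6 hpos

/-- Main theorem. Proof as in RV/M3 (by helper92). -/
theorem main {K : Type u} [Field K] [NumberField K] {Γ : Type} [Fintype Γ] [DecidableEq Γ]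
    (W : Γ → WeierstrassCurve K) [∀ a, (W a).IsElliptic] (n : ℕ) (cr : Fin n → Γ) (r : Γ → ℕ)
    (s : ℕ) (hs : s = ∑ a, min (r a) (Finset.univ.filter (fun i => cr i = a)).card)
    (hsn : s < n) {κ : Type} [Fintype κ] (D : Fin n → ℕ)
    (g : κ → MvPolynomial (Fin n × Fin 2) K) (hg : ∀ k, MH (g k) D) (hdim : DimLT g (n - s))
    (ε : ℝ) (hε : 0 < ε) :
    ∃ (R : MvPolynomial (Fin n × Fin 2) K) (E : Fin n → ℕ), MH R E ∧ R ≠ 0 ∧ ∃ C : ℝ,
      ∀ (L : Type u) [Field L] [NumberField L] [DecidableEq L] [Algebra K L]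
        (P : Fin n → ∀ a, ((W a).map (algebraMap K L)).toAffine.Point),
        (∀ a, Module.finrank ℤ (Submodule.span ℤ
          (Set.range fun i : {i // cr i = a} => P i a)) ≤ r a) →
          evl (fun i => (P i (cr i)).xRep) R ≠ 0 →
            dfc D g (fun i => (P i (cr i)).xRep) ≤
              ε * ∑ i, logHeight (P i (cr i)).xRep + C * Module.finrank ℚ L := by
  obtain ⟨R, E, h1, h2, C, h3⟩ := M3_supp W n cr r s hs hsn D g hg hdim ε hε
  refine ⟨R, E, h1, h2, C, ?_⟩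
  intro L _ _ _ _ P hP hR
  have h4 := h3 L (fun i => Pi.single (cr i) (P i (cr i)))
    (fun i a ha => Pi.single_eq_of_ne ha _)
    (by
      intro a
      have h5 : (fun i : {i // cr i = a} =>
          (Pi.single (cr i.1) (P i.1 (cr i.1)) :
            ∀ a, ((W a).map (algebraMap K L)).toAffine.Point) a) =
          fun i : {i // cr i = a} => P i.1 a := by
        funext i
        obtain ⟨i, rfl⟩ := i
        simp
      rw [h5]
      exact hP a)
  simp only [Pi.single_eq_same] at h4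
  exact h4 hR

end Pool.Agent.Lib.MP_17a322_nt.RC
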