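import Pool.Agent.Lib.MP_17a322_nt.RC.M3
import Pool.Agent.Lib.MP_17a322_nt.RV.M4b

/-!
The final statement, with colours.
-/

namespace Pool.Agent.Lib.MP_17a322_nt.RC

open MvPolynomial WeierstrassCurve Height
open Pool.Agent.Lib.MP_17a322_nt.RO Pool.Agent.Lib.MP_17a322_nt.RV

universe u

/-- Main theorem for products of elliptic curves. Proof as in RV/M4b (by helper92). -/
theorem final {K : Type u} [Field K] [NumberField K] {Γ : Type} [Fintype Γ] [DecidableEq Γ]
    (W : Γ → WeierstrassCurve K) [∀ a, (W a).IsElliptic] (n m : ℕ) (c : Fin n → Γ) (r : Γ → ℕ)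
    (g : Fin m → MvPolynomial (Fin n) K) (d : Fin n → ℕ) (hd : ∀ k i, (g k).degreeOf i ≤ d i)
    (hY : ∀ (F : Type u) [Field F] [Algebra K F] (X Z : Fin n → F),
      (∀ i, X i ≠ 0 ∨ Z i ≠ 0) →
      (∀ k, ∑ e ∈ (g k).support, algebraMap K F ((g k).coeff e) *
        ∏ i, (X i ^ e i * Z i ^ (d i - e i)) = 0) →
        Algebra.trdeg K (IntermediateField.adjoin K (Set.range fun i => X i / Z i)) +
          ∑ a, min (r a) (Finset.univ.filter (fun i => c i = a)).card < n)
    (hsn : ∑ a, min (r a) (Finset.univ.filter (fun i => c i = a)).card < n)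
    (ε : ℝ) (hε : 0 < ε) :
    ∃ G : MvPolynomial (Fin n) K, G ≠ 0 ∧ ∃ C : ℝ,
      ∀ (L : Type u) [Field L] [NumberField L] [DecidableEq L] [Algebra K L] (x y : Fin n → L),
        (∀ i, ((W (c i)).map (algebraMap K L)).toAffine.Nonsingular (x i) (y i)) →
        (∀ a, Module.finrank ℤ (Submodule.span ℤ {P : ((W a).map (algebraMap K L)).toAffine.Point |
          ∃ (i : Fin n) (h : ((W a).map (algebraMap K L)).toAffine.Nonsingular (x i) (y i)),
            c i = a ∧ P = Affine.Point.some (x i) (y i) h}) ≤ r a) →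
        aeval x G ≠ 0 →
          ∑ i, (d i : ℝ) * logHeight₁ (x i) - logHeight (fun k => aeval x (g k)) ≤
            ε * ∑ i, logHeight₁ (x i) + C * Module.finrank ℚ L := by
  classical
  have hdim := dimLT_of_trdeg (∑ a, min (r a) (Finset.univ.filter (fun i => c i = a)).card) n m g d
    (by
      intro F _ _ X Z hXZ h0
      have h1 := hY F X Z hXZ h0
      push_cast at h1 ⊢
      exact h1)
  obtain ⟨R, E, h1, h2, C, h3⟩ := main W n c r _ rfl hsn d (fun k => hom (g k) d)
    (fun k => mh_hom (g k) d (hd k)) hdim ε hε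
  obtain ⟨G, h4, h5⟩ := M4b_dehom E R h1 h2
  refine ⟨G, h4, C, ?_⟩
  intro L _ _ _ _ x y h hr hG
  set P : Fin n → ∀ a, ((W a).map (algebraMap K L)).toAffine.Point := fun i a =>
    if h' : ((W a).map (algebraMap K L)).toAffine.Nonsingular (x i) (y i) then
      Affine.Point.some (x i) (y i) h' else 0 with hP
  have hset : ∀ a, (Set.range fun i : {i // c i = a} => P i a) =
      {T : ((W a).map (algebraMap K L)).toAffine.Point |
        ∃ (i : Fin n) (h : ((W a).map (algebraMap K L)).toAffine.Nonsingular (x i) (y i)),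
          c i = a ∧ T = Affine.Point.some (x i) (y i) h} := by
    intro a
    ext T
    constructor
    · rintro ⟨⟨i, hi⟩, rfl⟩
      subst hi
      exact ⟨i, h i, rfl, by simp only [hP]; rw [dif_pos (h i)]⟩
    · rintro ⟨i, hi, hc, rfl⟩
      exact ⟨⟨i, hc⟩, by simp only [hP]; rw [dif_pos hi]⟩
  have h6 := h3 L P (by
    intro a
    rw [hset a]
    exact hr a)
  have h7 : ∀ i, (P i (c i)).xRep = ![x i, 1] := fun i => by
    simp only [hP]
    rw [dif_pos (h i)]
    exact Affine.Point.xRep_some ..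
  simp only [h7] at h6
  rw [← h5 L x] at h6
  have h8 := h6 hG
  unfold dfc at h8
  simp only [evl_hom_one, ← logHeight₁_eq_logHeight] at h8
  exact h8

end Pool.Agent.Lib.MP_17a322_nt.RC
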