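import Pool.Agent.Lib.MP_17a322_nt.RC.E

/-!
Pulling back forms by the addition map in one block, arbitrary vectors in the other blocks.
-/

namespace Pool.Agent.Lib.MP_17a322_nt.RC

open MvPolynomial WeierstrassCurve
open Pool.Agent.Lib.MP_17a322_nt.RO Pool.Agent.Lib.MP_17a322_nt.RV

universe u

/-- As `exists_sumForms` in RV/S1, with arbitrary vectors `z b` in the blocks `b ≠ b₀`.
Proof. The proof of RV/S1 works without change for the same `g'` (the points of the other blocks are
never used, only `S1_split`); copy it with `fun b => (P b).xRep` replaced by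
`Function.update z b₀ P.xRep`. The family `S` of `exists_transForm` is evaluated at a family of points;
its degree is `0` in the blocks `some b`, `b ≠ b₀`, so use the constant family `fun _ => P` there and
change the other blocks (`S1_evl`, `S1_deg`: the value does not depend on blocks of degree `0`; or
`evl_congr` in RC/E, which you may import). -/
theorem exists_sumForms {K : Type u} [Field K] [CharZero K] (W : WeierstrassCurve K)
    [W.IsElliptic] {B κ : Type} [Fintype B] [DecidableEq B] (D : B → ℕ)
    (g : κ → MvPolynomial (B × Fin 2) K) (hg : ∀ k, MH (g k) D) (b₀ : B) :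
    ∃ g' : κ × κ → MvPolynomial (Option B × Fin 2) K,
      (∀ k, MH (g' k) (fun o => 2 * D (o.getD b₀))) ∧
      ∀ (F : Type u) [Field F] [DecidableEq F] [Algebra K F] (V : WeierstrassCurve F),
        W.map (algebraMap K F) = V → ∀ (z : B → Fin 2 → F) (P A : V.toAffine.Point),
          ∃ γ : F, γ ≠ 0 ∧ ∀ k l,
            evl (pv A.xRep (Function.update z b₀ P.xRep)) (g' (k, l)) =
              γ * (evl (Function.update z b₀ (P + A).xRep) (g k) *
                    evl (Function.update z b₀ (P - A).xRep) (g l) +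
                  evl (Function.update z b₀ (P + A).xRep) (g l) *
                    evl (Function.update z b₀ (P - A).xRep) (g k)) := by
  obtain ⟨S, hS, hS'⟩ := exists_transForm W (1 : ℤ) b₀
  have hU : ∀ a a' : ℕ, ∃ U : MvPolynomial (Fin 3) K, a ≤ D b₀ → a' ≤ D b₀ →
      (U.IsHomogeneous (D b₀) ∧ ∀ (A : Type u) [CommRing A] [Algebra K A] (p p' : Fin 2 → A),
        aeval (sq2 p p') U =
          p 0 ^ a * p 1 ^ (D b₀ - a) * p' 0 ^ a' * p' 1 ^ (D b₀ - a') +
            p' 0 ^ a * p' 1 ^ (D b₀ - a) * p 0 ^ a' * p 1 ^ (D b₀ - a')) := by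
    intro a a'
    by_cases h : a ≤ D b₀ ∧ a' ≤ D b₀
    · obtain ⟨U, h1, h2⟩ := exists_symForm.{u, u} K (D b₀) a a' h.1 h.2
      exact ⟨U, fun _ _ => ⟨h1, h2⟩⟩
    · exact ⟨0, fun h1 h2 => absurd ⟨h1, h2⟩ h⟩
  choose U hU using hU
  refine ⟨fun k => ∑ s ∈ (g k.1).support, ∑ t ∈ (g k.2).support,
    C (coeff s (g k.1) * coeff t (g k.2)) *
      (S1_T K b₀ s t * aeval S (U (s (b₀, 0)) (t (b₀, 0)))), ?_, ?_⟩
  · intro k
    unfold MH
    refine IsWeightedHomogeneous.sum _ _ _ fun s hs => IsWeightedHomogeneous.sum _ _ _ fun t ht => ?_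
    have hs' := S1_deg (hg k.1) hs
    have ht' := S1_deg (hg k.2) ht
    have h1 := S1_T_mh (K := K) b₀ hs' ht'
    have h2 := (hU (s (b₀, 0)) (t (b₀, 0)) (by have := hs' b₀; omega)
      (by have := ht' b₀; omega)).1
    have h3 := D2_aeval_wh (bwt (Option B) (Fin 2)) (D b₀) _ h2 S _ hS
    have h4 := (IsWeightedHomogeneous.mul h1 h3).C_mul (coeff s (g k.1) * coeff t (g k.2))
    have e : (pd 0 (fun b => if b = b₀ then 0 else 2 * D b) +
        D b₀ • pd (2 * (1 : ℤ).natAbs ^ 2) (Pi.single b₀ 2) : Option B → ℕ) =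
        fun o => 2 * D (o.getD b₀) := by
      funext o
      cases o with
      | none => simp [pd, mul_comm]
      | some b =>
        simp only [pd, Pi.add_apply, Pi.smul_apply, Option.elim, smul_eq_mul, Pi.single_apply,
          Option.getD_some]
        by_cases hb : b = b₀
        · simp [hb, mul_comm]
        · simp [hb]
    rw [e] at h4
    exact h4
  · intro F _ _ _ V hV ζ P A
    obtain ⟨c, hc, hcS⟩ := hS' F V hV A (fun _ => P)
    refine ⟨c ^ D b₀, pow_ne_zero _ hc, fun k l => ?_⟩
    set x : B → Fin 2 → F := Function.update ζ b₀ P.xRep with hx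
    set z : Option B → Fin 2 → F := pv A.xRep x with hz
    set p : Fin 2 → F := (P + A).xRep with hp
    set p' : Fin 2 → F := (P - A).xRep with hp'
    have hcS' : ∀ i, evl z (S i) = c * sq2 p p' i := by
      intro i
      have e0 : evl z (S i) = evl (pv A.xRep (fun _ : B => P.xRep)) (S i) := by
        refine evl_congr (hS i) _ _ fun o ho => ?_
        cases o with
        | none => rfl
        | some b =>
          by_cases hb : b = b₀
          · subst hb
            simp only [hz, hx, pv, Option.elim, Function.update_self]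
          · exfalso
            apply ho
            simp [pd, hb]
      rw [e0, hcS i]
      have e1 : (1 : ℤ) • A + P = P + A := by rw [one_zsmul, add_comm]
      have e2 : (1 : ℤ) • A - P = -(P - A) := by rw [one_zsmul, neg_sub]
      rw [e1, e2, WeierstrassCurve.Affine.Point.xRep_neg]
    have hUv : ∀ a a' : ℕ, a ≤ D b₀ → a' ≤ D b₀ → evl z (aeval S (U a a')) = c ^ D b₀ *
        (p 0 ^ a * p 1 ^ (D b₀ - a) * p' 0 ^ a' * p' 1 ^ (D b₀ - a') +
            p' 0 ^ a * p' 1 ^ (D b₀ - a) * p 0 ^ a' * p 1 ^ (D b₀ - a')) := by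
      intro a a' ha ha'
      obtain ⟨h1, h2⟩ := hU a a' ha ha'
      have e1 : evl z (aeval S (U a a')) = aeval (fun i => evl z (S i)) (U a a') := by
        unfold evl
        rw [← AlgHom.comp_apply, comp_aeval]
      have e2 : (fun i => evl z (S i)) = fun i => c * sq2 p p' i := funext hcS'
      rw [e1, e2, D2_aeval_smul (D b₀) _ h1, h2]
    set y : B → Fin 2 → F := Function.update ζ b₀ p with hy
    set y' : B → Fin 2 → F := Function.update ζ b₀ p' with hy'
    have hy0 : y b₀ = p := by rw [hy, Function.update_self]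
    have hy0' : y' b₀ = p' := by rw [hy', Function.update_self]
    have hy1 : ∀ b, b ≠ b₀ → y b = x b := by
      intro b hb
      rw [hy, hx, Function.update_of_ne hb, Function.update_of_ne hb]
    have hy1' : ∀ b, b ≠ b₀ → y' b = x b := by
      intro b hb
      rw [hy', hx, Function.update_of_ne hb, Function.update_of_ne hb]
    rw [S1_evl y (g k), S1_evl y' (g l), S1_evl y (g l), S1_evl y' (g k)]
    have hL : evl z (∑ s ∈ (g k).support, ∑ t ∈ (g l).support,
        C (coeff s (g k) * coeff t (g l)) *
          (S1_T K b₀ s t * aeval S (U (s (b₀, 0)) (t (b₀, 0))))) =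
        ∑ s ∈ (g k).support, ∑ t ∈ (g l).support,
          algebraMap K F (coeff s (g k)) * algebraMap K F (coeff t (g l)) *
            (evl z (S1_T K b₀ s t) * evl z (aeval S (U (s (b₀, 0)) (t (b₀, 0))))) := by
      unfold evl
      simp only [map_sum, map_mul, aeval_C]
    rw [hL, Finset.sum_mul_sum, Finset.sum_mul_sum, Finset.sum_comm (s := (g l).support),
      ← Finset.sum_add_distrib, Finset.mul_sum]
    refine Finset.sum_congr rfl fun s hs => ?_
    rw [← Finset.sum_add_distrib, Finset.mul_sum]
    refine Finset.sum_congr rfl fun t ht => ?_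
    have hs' := S1_deg (hg k) hs b₀
    have ht' := S1_deg (hg l) ht b₀
    rw [hUv _ _ (by omega) (by omega), hz, S1_T_evl]
    have e1 := S1_split b₀ s t x y y' hy1 hy1'
    have e2 := S1_split b₀ s t x y' y hy1' hy1
    rw [hy0, hy0'] at e1 e2
    have e3 : D b₀ - s (b₀, 0) = s (b₀, 1) := by omega
    have e4 : D b₀ - t (b₀, 0) = t (b₀, 1) := by omega
    rw [e3, e4]
    linear_combination (-(c ^ D b₀ * algebraMap K F (coeff s (g k)) *
      algebraMap K F (coeff t (g l)))) * (e1 + e2)

end Pool.Agent.Lib.MP_17a322_nt.RC
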