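import Pool.Agent.Lib.MP_17a322_nt.RV.T1
import Pool.Agent.Lib.MP_17a322_nt.RO.B1
import Pool.Agent.Lib.MP_17a322_nt.RO.G1

/-!
One translation step, blocks with colours.
-/

namespace Pool.Agent.Lib.MP_17a322_nt.RC

open MvPolynomial WeierstrassCurve
open Pool.Agent.Lib.MP_17a322_nt.RO Pool.Agent.Lib.MP_17a322_nt.RV

universe u

/-- `xRep` of the image of a point. -/
theorem T1_map_xRep {K F F' : Type*} [Field K] [Field F] [Field F'] [DecidableEq F]
    [DecidableEq F'] [Algebra K F] [Algebra K F'] (W : WeierstrassCurve K) (f : F →ₐ[K] F')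
    (P : (W.map (algebraMap K F)).toAffine.Point) :
    Affine.Point.xRep (W' := (W.map (algebraMap K F')).toAffine)
      (Affine.Point.map (W' := W.toAffine) f P) = fun i => f (P.xRep i) := by
  cases P with
  | zero =>
    change (![1, 0] : Fin 2 → F') = fun i => f ((![1, 0] : Fin 2 → F) i)
    funext i
    fin_cases i
    · exact (map_one f).symm
    · exact (map_zero f).symm
  | some x y h =>
    change (![f x, 1] : Fin 2 → F') = fun i => f ((![x, 1] : Fin 2 → F) i)
    funext i
    fin_cases i
    · rfl
    · exact (map_one f).symm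

/-- A point of another curve over an algebraically closed field with the same `xRep`. -/
theorem T1_exists_xRep {F F' : Type*} [Field F] [Field F'] [Algebra F F'] [IsAlgClosed F']
    (V : WeierstrassCurve F) (V' : WeierstrassCurve F') [V'.IsElliptic] (P : V.toAffine.Point) :
    ∃ Q : V'.toAffine.Point, Q.xRep = fun i => algebraMap F F' (P.xRep i) := by
  cases P with
  | zero =>
    refine ⟨0, ?_⟩
    have h2 : (Affine.Point.zero : V.toAffine.Point).xRep = ![1, 0] := rfl
    rw [Affine.Point.xRep_zero, h2]
    funext i
    fin_cases i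
    · exact (map_one _).symm
    · exact (map_zero _).symm
  | some x y h =>
    obtain ⟨Q, hQ⟩ := T1_point V' (algebraMap F F' x)
    refine ⟨Q, ?_⟩
    rw [hQ, Affine.Point.xRep_some]
    funext i
    fin_cases i
    · rfl
    · exact (map_one _).symm

/-- Values of forms and field extensions. -/
theorem T1_evl_map {K F F' B : Type*} [Field K] [Field F] [Field F'] [Algebra K F] [Algebra K F']
    [Algebra F F'] [IsScalarTower K F F'] (φ : MvPolynomial (B × Fin 2) K) (x : B → Fin 2 → F) :
    evl (fun b i => algebraMap F F' (x b i)) φ = algebraMap F F' (evl x φ) := by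
  unfold evl
  exact aeval_algebraMap_apply F' (fun p : B × Fin 2 => x p.1 p.2) φ

/-- As `exists_step` in RV/T1 for blocks with colours (see RC/E): only blocks of the colour of `a` are
translated.
Proof. Take `G'` from `RV.exists_step` for the curve `W (col a)`. Given `F`, `V`, `P` let
`F' = AlgebraicClosure F`. Let `P' b` be the following point over `F'` of the curve
`V' = (W (col a)).map (algebraMap K F')`: if `col b = col a` the image of `P b (col a)` under the
homomorphism of points induced by `F → F'` (compatible with `xRep`; see RO/G1 `G1_lift` / `G1_map_mem`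
or RV/U6 for such maps; if `k b ≠ 0` then `col b = col a`); otherwise a point with
`(P' b).xRep` = image of `(P b (col b)).xRep` (`exists_point`, RO/B1, gives it up to a nonzero factor,
and the factor is `1` because the last entry of both vectors is `0` or `1`, with first entry `1` in the
first case). Then `evl (x(P')) G'` is the image of `evl (x(P)) G'` (`aeval_algebraMap_apply`), so it is
not `0`, and `G(x(P' b + k b • P' a))` is the image of `G(x(P b + k b • P a))`: for `col b = col a` the
map is a homomorphism, for `col b ≠ col a` we have `k b = 0`. -/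
theorem exists_step {K : Type u} [Field K] [CharZero K] {Γ : Type} [DecidableEq Γ]
    (W : Γ → WeierstrassCurve K) [∀ a, (W a).IsElliptic] {B : Type} [Fintype B] [DecidableEq B]
    (col : B → Γ) (a : B) (k : B → ℤ) (hk : k a = 0) (hcol : ∀ b, k b ≠ 0 → col b = col a)
    (E : B → ℕ) (G : MvPolynomial (B × Fin 2) K) (hG : MH G E) (hG0 : G ≠ 0) :
    ∃ (G' : MvPolynomial (B × Fin 2) K) (E' : B → ℕ), MH G' E' ∧ G' ≠ 0 ∧
      ∀ (F : Type u) [Field F] [DecidableEq F] [Algebra K F] (V : Γ → WeierstrassCurve F),
        (∀ a, (W a).map (algebraMap K F) = V a) → ∀ P : B → ∀ a, (V a).toAffine.Point,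
          evl (fun b => (P b (col b)).xRep) G' ≠ 0 →
            evl (fun b => ((P b + k b • P a) (col b)).xRep) G ≠ 0 := by
  obtain ⟨G', E', hG', hG'0, hstep⟩ := RV.exists_step (W (col a)) a k hk E G hG hG0
  refine ⟨G', E', hG', hG'0, ?_⟩
  intro F _ _ _ V hV P hne
  obtain rfl : (fun a => (W a).map (algebraMap K F)) = V := funext hV
  classical
  let F' : Type u := AlgebraicClosure F
  let V' : WeierstrassCurve F' := (W (col a)).map (algebraMap K F')
  let f : F →ₐ[K] F' := IsScalarTower.toAlgHom K F F'
  have hf : ∀ z, f z = algebraMap F F' z := fun z => rfl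
  -- the images of the points of the colour of `a`
  let μ : ((W (col a)).map (algebraMap K F)).toAffine.Point →+ V'.toAffine.Point :=
    Affine.Point.map (W' := (W (col a)).toAffine) f
  have hμ : ∀ Q, (μ Q).xRep = fun i => algebraMap F F' (Q.xRep i) := fun Q =>
    T1_map_xRep (W (col a)) f Q
  choose ν hν using fun b => T1_exists_xRep (F' := F') ((W (col b)).map (algebraMap K F)) V'
    (P b (col b))
  let P' : B → V'.toAffine.Point := fun b => if col b = col a then μ (P b (col a)) else ν b
  have hP'1 : ∀ b, (P' b).xRep = fun i => algebraMap F F' ((P b (col b)).xRep i) := by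
    intro b
    by_cases hb : col b = col a
    · have h1 : P' b = μ (P b (col a)) := if_pos hb
      rw [h1, hμ, ← hb]
    · have h1 : P' b = ν b := if_neg hb
      rw [h1, hν]
  have hP'2 : ∀ b, (P' b + k b • P' a).xRep =
      fun i => algebraMap F F' (((P b + k b • P a) (col b)).xRep i) := by
    intro b
    by_cases hb : col b = col a
    · have h1 : P' b = μ (P b (col a)) := if_pos hb
      have h2 : P' a = μ (P a (col a)) := if_pos rfl
      rw [h1, h2, ← map_zsmul, ← map_add, hμ, hb]
      rfl
    · have h0 : k b = 0 := by
        by_contra h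
        exact hb (hcol b h)
      have e1 : (0 : ℤ) • P' a = 0 := zero_zsmul _
      have e2 : (0 : ℤ) • P a = 0 := zero_zsmul _
      rw [h0, e1, e2, add_zero, add_zero, hP'1]
  have h1 := hstep F' V' rfl P' ?_
  · intro h2
    apply h1
    rw [show (fun b => (P' b + k b • P' a).xRep) =
      fun b i => algebraMap F F' (((P b + k b • P a) (col b)).xRep i) from funext hP'2,
      T1_evl_map, h2, map_zero]
  · rw [show (fun b => (P' b).xRep) =
      fun b i => algebraMap F F' ((P b (col b)).xRep i) from funext hP'1, T1_evl_map]
    intro h3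
    exact hne ((map_eq_zero (algebraMap F F')).1 h3)

end Pool.Agent.Lib.MP_17a322_nt.RC
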